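import Mathlib

/-!
# Coarse moduli of canonically polarized surfaces: the statement (MP_bceb84_ag)

`k` is an algebraically closed field of characteristic `p`, `X₀` a smooth canonically polarized
surface over `k`.  A *family* is a flat proper morphism `f : X ⟶ Spec A`, `A` an Artinian local
ring with a surjection `π : A → k`, whose base change to `k` is isomorphic to `X₀`.
A *natural function* assigns to every family an element of its base ring `A`, compatibly with all
cartesian squares.  By the theorem of Keel and Mori the ring of natural functions on all families is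
the complete local ring at the point `[X₀]` of the coarse moduli space over `ℤ` (base changed
to the Witt vectors of `k`), and the ring of natural functions on families with `p = 0` in `A` is
the complete local ring at `[X₀]` of the coarse moduli space of the stack over `𝔽_p`.
-/

open CategoryTheory AlgebraicGeometry Limits

namespace Pool.Agent.H1.CM

/-! ## Rational 2-forms -/

section TwoForms

variable {k K : Type} [Field k] [Field K]

/-- `D` is a derivation of the field `K` which vanishes on the constants `ι k`. -/
structure IsDer (ι : k →+* K) (D : K → K) : Prop where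
  add : ∀ f g, D (f + g) = D f + D g
  mul : ∀ f g, D (f * g) = f * D g + g * D f
  const : ∀ c, D (ι c) = 0

/-- Rational 2-forms of `K` over `k`, given by their values on pairs of derivations. -/
abbrev TwoForm (ι : k →+* K) : Type :=
  {D : K → K // IsDer ι D} → {D : K → K // IsDer ι D} → K

/-- The 2-form `df ∧ dg`. -/
def wedge (ι : k →+* K) (f g : K) : TwoForm ι := fun D₁ D₂ => D₁.1 f * D₂.1 g - D₁.1 g * D₂.1 f

/-- `g η` generates the `R`-module of 2-forms of `R`, that is, the `R`-module generated by the
`df ∧ df'` with `f, f' ∈ R`. -/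
def Generates (ι : k →+* K) (R : Subring K) (η : TwoForm ι) (g : K) : Prop :=
  (∀ f ∈ R, ∀ f' ∈ R, ∃ h ∈ R, ∀ D₁ D₂, wedge ι f f' D₁ D₂ = h * (g * η D₁ D₂)) ∧
  ∃ (n : ℕ) (c f f' : Fin n → K), (∀ i, c i ∈ R ∧ f i ∈ R ∧ f' i ∈ R) ∧
    ∀ D₁ D₂, g * η D₁ D₂ = ∑ i, c i * wedge ι (f i) (f' i) D₁ D₂

/-- The `n`-fold 2-form `φ η^n` is regular over `R`: it is an `R`-multiple of the `n`-th power of a
generator `g η` of the 2-forms of `R`. -/
def RegularAt (ι : k →+* K) (R : Subring K) (η : TwoForm ι) (n : ℕ) (φ : K) : Prop :=
  ∃ g : K, Generates ι R η g ∧ ∃ h ∈ R, φ = h * g ^ n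

/-- The `n`-fold 2-form `φ η^n` is regular over `R` and has no zero: it is a multiple by a unit of
`R` of the `n`-th power of a generator `g η` of the 2-forms of `R`. -/
def NonvanishingAt (ι : k →+* K) (R : Subring K) (η : TwoForm ι) (n : ℕ) (φ : K) : Prop :=
  ∃ g : K, Generates ι R η g ∧ ∃ h ∈ R, h ≠ 0 ∧ h⁻¹ ∈ R ∧ φ = h * g ^ n

end TwoForms

/-! ## Canonically polarized surfaces -/

section CanPol

variable {k : Type} [Field k] {X : Scheme.{0}} [IsIntegral X]

/-- The local ring at `x` as a subring of the function field. -/
noncomputable def localSub (X : Scheme.{0}) [IsIntegral X] (x : X) : Subring X.functionField :=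
  (algebraMap (X.presheaf.stalk x) X.functionField).range

/-- The constants inside the function field. -/
noncomputable def constants (s : X ⟶ Spec (CommRingCat.of k)) : k →+* X.functionField :=
  (X.presheaf.germ ⊤ (genericPoint X) trivial).hom.comp
    ((s.appTop).hom.comp (Scheme.ΓSpecIso (CommRingCat.of k)).inv.hom)

/-- The canonical sheaf of `X` over `k` is ample: every point lies in an affine open subset which
is the complement of the zeros of a pluricanonical form `φ η^n`, `n ≥ 1` (`η` is a fixed rational
2-form). -/
def AmpleCanonical (s : X ⟶ Spec (CommRingCat.of k)) : Prop :=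
  ∃ η : TwoForm (constants s), η ≠ 0 ∧
    ∀ x : X, ∃ n : ℕ, 1 ≤ n ∧ ∃ φ : X.functionField,
      (∀ y : X, RegularAt (constants s) (localSub X y) η n φ) ∧
      ∃ U : X.Opens, IsAffineOpen U ∧ x ∈ U ∧
        ∀ y : X, y ∈ U ↔ NonvanishingAt (constants s) (localSub X y) η n φ

end CanPol

/-- A smooth canonically polarized surface over `k`: integral, proper, smooth of relative
dimension 2, with ample canonical sheaf. -/
def CanonicallyPolarized {k : Type} [Field k] {X : Scheme.{0}}
    (s : X ⟶ Spec (CommRingCat.of k)) : Prop :=
  ∃ _ : IsIntegral X, IsProper s ∧ SmoothOfRelativeDimension 2 s ∧ AmpleCanonical s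

/-! ## Families and natural functions -/

/-- A flat proper family over an Artinian local ring with residue field `k` whose special fibre is
isomorphic to `X₀`. -/
structure Family {k : Type} [Field k] {X₀ : Scheme.{0}} (s₀ : X₀ ⟶ Spec (CommRingCat.of k)) where
  /-- the base ring -/
  A : Type
  [commRing : CommRing A]
  [isLocalRing : IsLocalRing A]
  [isArtinianRing : IsArtinianRing A]
  /-- the residue map -/
  π : A →+* k
  surj : Function.Surjective π
  /-- the total space -/
  X : Scheme.{0}
  /-- the structure morphism -/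
  f : X ⟶ Spec (CommRingCat.of A)
  flat : Flat f
  proper : IsProper f
  finPres : LocallyOfFinitePresentation f
  fibre : ∃ i : X₀ ⟶ X, IsPullback i s₀ f (Spec.map (CommRingCat.ofHom π))

attribute [instance] Family.commRing Family.isLocalRing Family.isArtinianRing

section Nat

variable {k : Type} [Field k] {X₀ : Scheme.{0}} {s₀ : X₀ ⟶ Spec (CommRingCat.of k)}

/-- A cartesian morphism of families: `𝓧'` is the base change of `𝓧` along `φ`. -/
structure Family.BaseChange (𝓧' 𝓧 : Family s₀) where
  /-- the map of base rings -/
  φ : 𝓧.A →+* 𝓧'.A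
  comp : 𝓧'.π.comp φ = 𝓧.π
  /-- the map of total spaces -/
  g : 𝓧'.X ⟶ 𝓧.X
  cart : IsPullback g 𝓧'.f 𝓧.f (Spec.map (CommRingCat.ofHom φ))

/-- A natural function on the families satisfying `P`. -/
structure NaturalFunction (s₀ : X₀ ⟶ Spec (CommRingCat.of k)) (P : Family s₀ → Prop) where
  /-- the value on a family -/
  val : ∀ 𝓧 : Family s₀, P 𝓧 → 𝓧.A
  natural : ∀ (𝓧' 𝓧 : Family s₀) (β : Family.BaseChange 𝓧' 𝓧) (h' : P 𝓧') (h : P 𝓧),
    β.φ (val 𝓧 h) = val 𝓧' h'

/-- Families in characteristic `p`. -/
def InChar (p : ℕ) (𝓧 : Family s₀) : Prop := (p : 𝓧.A) = 0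

end Nat

end Pool.Agent.H1.CM
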