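import Mathlib
import Pool.Agent.H1.CM.Stmt

/-!
# Ample canonical sheaf by Kaehler differentials (used in the proofs only)
-/

open CategoryTheory AlgebraicGeometry Limits

namespace Pool.Agent.H1.CM

/-! ## Rational 2-forms -/

section Forms

variable (k K : Type) [Field k] [Field K] [Algebra k K]

/-- Rational 2-forms. -/
abbrev Forms : Type := ⋀[K]^2 (Ω[K⁄k])

variable {K}

/-- `dd f g = df ∧ dg`. -/
noncomputable def dd (f g : K) : Forms k K :=
  exteriorPower.ιMulti K 2 ![KaehlerDifferential.D k K f, KaehlerDifferential.D k K g]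

/-- The `R`-module of 2-forms generated by the `df ∧ dg` with `f, g ∈ R`. -/
noncomputable def omegaSub (R : Subring K) : Submodule R (Forms k K) :=
  Submodule.span R {ω | ∃ f ∈ R, ∃ g ∈ R, ω = dd k f g}

/-- `g η` generates the module of 2-forms of `R`. -/
def IsGen (R : Subring K) (η : Forms k K) (g : K) : Prop :=
  Submodule.span R {g • η} = omegaSub k R

/-- `f η^n` is regular over `R` as an `n`-fold 2-form. -/
def RegAt (R : Subring K) (η : Forms k K) (n : ℕ) (f : K) : Prop :=
  ∃ g : K, IsGen k R η g ∧ ∃ h ∈ R, f = h * g ^ n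

/-- `f η^n` generates the module of `n`-fold 2-forms of `R`. -/
def NonvanAt (R : Subring K) (η : Forms k K) (n : ℕ) (f : K) : Prop :=
  ∃ g : K, IsGen k R η g ∧ ∃ h ∈ R, h ≠ 0 ∧ h⁻¹ ∈ R ∧ f = h * g ^ n

end Forms

section CanPol

variable {k : Type} [Field k] {X : Scheme.{0}} [IsIntegral X]

/-- The canonical sheaf of `X` over `k` is ample: every point lies in an affine open subset which
is the complement of the zeros of a pluricanonical form. -/
def CanonicalAmple (s : X ⟶ Spec (CommRingCat.of k)) : Prop :=
  letI := (constants s).toAlgebra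
  ∃ η : Forms k X.functionField, η ≠ 0 ∧
    ∀ x : X, ∃ n : ℕ, 1 ≤ n ∧ ∃ f : X.functionField,
      (∀ y : X, RegAt k (localSub X y) η n f) ∧
      ∃ U : X.Opens, IsAffineOpen U ∧ x ∈ U ∧ ∀ y : X, y ∈ U ↔ NonvanAt k (localSub X y) η n f

end CanPol

/-- A smooth canonically polarized surface over `k`: integral, proper, smooth of relative
dimension 2, with ample canonical sheaf. -/
def SmoothCanPol {k : Type} [Field k] {X : Scheme.{0}} (s : X ⟶ Spec (CommRingCat.of k)) : Prop :=
  ∃ _ : IsIntegral X, IsProper s ∧ SmoothOfRelativeDimension 2 s ∧ CanonicalAmple s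

/-- The statement: for every algebraically closed field of characteristic `2` there is a smooth
canonically polarized surface `X₀` and a natural function on the families in characteristic `2`
which does not extend to a natural function on all families. -/
def MainStatement : Prop :=
  ∀ (k : Type) [Field k] [IsAlgClosed k] [CharP k 2],
    ∃ (X₀ : Scheme.{0}) (s₀ : X₀ ⟶ Spec (CommRingCat.of k)), SmoothCanPol s₀ ∧
      ∃ F₂ : NaturalFunction s₀ (InChar 2),
        ¬ ∃ F : NaturalFunction s₀ (fun _ => True),
          ∀ (𝓧 : Family s₀) (h : InChar 2 𝓧), F.val 𝓧 trivial = F₂.val 𝓧 h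

end Pool.Agent.H1.CM
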