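import Mathlib
import Pool.Agent.H1.CM.Stmt0

/-!
# Definitions for the modules (coarse moduli of canonically polarized surfaces)

Weighted projective space with coordinates `x, y, z` (degree 1), `N` (degree 2), `w` (degree 5).
Data `D = (a, c, b0, b1, e0, e1)` (forms in `x, y, z` of degrees `2, 4, 5, 3, 10, 8`) define the
surface `N² + aN + c = 0`, `w² + (b0 + b1 N) w + e0 + e1 N = 0`.
On the open set `xyz ≠ 0` we use the functions `X = x/z`, `Y = y/z`, `n = N/z²`, `w/z⁵`.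
Everything is written without algebra instances: `ι : A →+* C` is the structure map.
-/

open CategoryTheory AlgebraicGeometry Limits

namespace Pool.Agent.H1.CM

/-! ## Data -/

/-- The data of a surface. -/
@[ext] structure Data (A : Type) [CommRing A] where
  a : MvPolynomial (Fin 3) A
  c : MvPolynomial (Fin 3) A
  b0 : MvPolynomial (Fin 3) A
  b1 : MvPolynomial (Fin 3) A
  e0 : MvPolynomial (Fin 3) A
  e1 : MvPolynomial (Fin 3) A

/-- The forms have the right degrees. -/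
structure Data.Homog {A : Type} [CommRing A] (D : Data A) : Prop where
  a : D.a.IsHomogeneous 2
  c : D.c.IsHomogeneous 4
  b0 : D.b0.IsHomogeneous 5
  b1 : D.b1.IsHomogeneous 3
  e0 : D.e0.IsHomogeneous 10
  e1 : D.e1.IsHomogeneous 8

/-- Base change of data. -/
noncomputable def Data.map {A A' : Type} [CommRing A] [CommRing A'] (φ : A →+* A') (D : Data A) :
    Data A' :=
  ⟨MvPolynomial.map φ D.a, MvPolynomial.map φ D.c, MvPolynomial.map φ D.b0,
    MvPolynomial.map φ D.b1, MvPolynomial.map φ D.e0, MvPolynomial.map φ D.e1⟩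

section Std

variable (A : Type) [CommRing A]

/-- `x³z + y³z + xz³ + yz³`. -/
noncomputable def cStd : MvPolynomial (Fin 3) A :=
  MvPolynomial.X 0 ^ 3 * MvPolynomial.X 2 + MvPolynomial.X 1 ^ 3 * MvPolynomial.X 2
    + MvPolynomial.X 0 * MvPolynomial.X 2 ^ 3 + MvPolynomial.X 1 * MvPolynomial.X 2 ^ 3

/-- `xz⁹ + x¹⁰ + x³y³c`. -/
noncomputable def eStd : MvPolynomial (Fin 3) A :=
  MvPolynomial.X 0 * MvPolynomial.X 2 ^ 9 + MvPolynomial.X 0 ^ 10
    + MvPolynomial.X 0 ^ 3 * MvPolynomial.X 1 ^ 3 * cStd A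

variable {A}

/-- The standard family with parameter `t` (the parameter `ε` of the text). -/
noncomputable def std (t : A) : Data A where
  a := MvPolynomial.X 0 * MvPolynomial.X 1
  c := cStd A
  b0 := MvPolynomial.C (1 - t) * MvPolynomial.X 0 ^ 5 + MvPolynomial.X 1 ^ 5
  b1 := 0
  e0 := eStd A - MvPolynomial.C t * (MvPolynomial.X 0 ^ 5 * MvPolynomial.X 1 ^ 5)
  e1 := MvPolynomial.C (1 - t) * (MvPolynomial.X 0 ^ 4 * MvPolynomial.X 1 ^ 4)

end Std

/-! ## Quadruples of functions -/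

/-- The functions `X = x/z`, `Y = y/z`, `n = N/z²`, `w/z⁵` on the torus chart. -/
@[ext] structure Quad (C : Type) [CommRing C] where
  X : Cˣ
  Y : Cˣ
  n : C
  w : C

/-- Image of a quadruple under a ring homomorphism. -/
def Quad.map {C C' : Type} [CommRing C] [CommRing C'] (φ : C →+* C') (q : Quad C) : Quad C' :=
  ⟨Units.map φ.toMonoidHom q.X, Units.map φ.toMonoidHom q.Y, φ q.n, φ q.w⟩

section Quad

variable {A C : Type} [CommRing A] [CommRing C]

/-- The point `(X, Y, 1)`. -/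
def Quad.vec (q : Quad C) : Fin 3 → C := ![(q.X : C), (q.Y : C), 1]

/-- Evaluation of a form at `(X, Y, 1)`. -/
noncomputable def Quad.ev (ι : A →+* C) (q : Quad C) (p : MvPolynomial (Fin 3) A) : C :=
  MvPolynomial.eval₂ ι q.vec p

/-- The two equations. -/
structure Quad.Rel (ι : A →+* C) (q : Quad C) (D : Data A) : Prop where
  r1 : q.n ^ 2 + q.ev ι D.a * q.n + q.ev ι D.c = 0
  r2 : q.w ^ 2 + (q.ev ι D.b0 + q.ev ι D.b1 * q.n) * q.w
    + (q.ev ι D.e0 + q.ev ι D.e1 * q.n) = 0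

/-- The index set of the monomials `X^i Y^j e_t`, `e = (1, n, w, nw)`. -/
abbrev Idx : Type := ℤ × ℤ × Fin 4

/-- Degrees of `e = (1, n, w, nw)`. -/
def dg : Fin 4 → ℤ := ![0, 2, 5, 7]

/-- Degrees of `e = (1, n, w, nw)` as natural numbers. -/
def dgN : Fin 4 → ℕ := ![0, 2, 5, 7]

/-- `e = (1, n, w, nw)`. -/
def Quad.e (q : Quad C) : Fin 4 → C := ![1, q.n, q.w, q.n * q.w]

/-- The monomial `X^i Y^j e_t`. -/
def Quad.mon (q : Quad C) (s : Idx) : C :=
  ((q.X ^ s.1 : Cˣ) : C) * ((q.Y ^ s.2.1 : Cˣ) : C) * q.e s.2.2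

/-- The exponents of `x, y, z` in `X^i Y^j e_t`. -/
def expo (s : Idx) : Fin 3 → ℤ := ![s.1, s.2.1, -s.1 - s.2.1 - dg s.2.2]

/-- The monomials which are regular on the chart `V_S = {x_r ≠ 0 for all r ∈ S}`. -/
def reg (S : Finset (Fin 3)) : Set Idx := {s | ∀ r, r ∉ S → 0 ≤ expo s r}

/-- Linear combinations. -/
noncomputable def comb (ι : A →+* C) (β : Idx → C) (g : Idx →₀ A) : C :=
  g.sum fun s a => ι a * β s

/-- `β` is a basis of `C` over `A`, and the subring `B S` is spanned by the `β s`, `s ∈ reg S`. -/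
structure Frame (ι : A →+* C) (β : Idx → C) (B : Finset (Fin 3) → Subring C) : Prop where
  bij : Function.Bijective (comb ι β)
  mem : ∀ S : Finset (Fin 3), S.Nonempty → ∀ c : C,
    c ∈ B S ↔ ∃ g : Idx →₀ A, (∀ s ∈ g.support, s ∈ reg S) ∧ c = comb ι β g

/-- The quadruple is adapted to the subrings `B S` (sections over the charts). -/
structure Coord (B : Finset (Fin 3) → Subring C) (q : Quad C) : Prop where
  z : (q.X : C) ∈ B {2} ∧ (q.Y : C) ∈ B {2} ∧ q.n ∈ B {2} ∧ q.w ∈ B {2}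
  x : ((q.X⁻¹ : Cˣ) : C) ∈ B {0} ∧ (q.Y : C) * ((q.X⁻¹ : Cˣ) : C) ∈ B {0} ∧
    q.n * ((q.X⁻¹ : Cˣ) : C) ^ 2 ∈ B {0} ∧ q.w * ((q.X⁻¹ : Cˣ) : C) ^ 5 ∈ B {0}
  y : ((q.Y⁻¹ : Cˣ) : C) ∈ B {1} ∧ (q.X : C) * ((q.Y⁻¹ : Cˣ) : C) ∈ B {1} ∧
    q.n * ((q.Y⁻¹ : Cˣ) : C) ^ 2 ∈ B {1} ∧ q.w * ((q.Y⁻¹ : Cˣ) : C) ^ 5 ∈ B {1}

end Quad

/-- The Čech data of a deformation: `C` is the ring of the torus chart of a flat deformation over
`A` of a surface with torus chart `C₀` and frame `q₀` over `k`; `B S` are the subrings of the other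
charts, `ρ : C →+* C₀` is the reduction. -/
structure LinCech {A k C C₀ : Type} [CommRing A] [Field k] [CommRing C] [CommRing C₀]
    (π : A →+* k) (ι : A →+* C) (B : Finset (Fin 3) → Subring C) (ι₀ : k →+* C₀) (q₀ : Quad C₀)
    (ρ : C →+* C₀) : Prop where
  comm : ∀ a, ρ (ι a) = ι₀ (π a)
  mono : ∀ S T : Finset (Fin 3), S.Nonempty → S ⊆ T → B S ≤ B T
  basis : ∃ β : Idx → C, Frame ι β B ∧ ∀ s, ρ (β s) = q₀.mon s

end Pool.Agent.H1.CM
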