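import Mathlib
import Pool.Agent.H1.CM.Defs

/-!
# Basic lemmas on linear combinations of monomials
-/

namespace Pool.Agent.H1.CM

section

variable {A C : Type} [CommRing A] [CommRing C]

/-- `c` is a linear combination of the `β s`, `s ∈ R`. -/
def InSpan (ι : A →+* C) (β : Idx → C) (R : Set Idx) (c : C) : Prop :=
  ∃ g : Idx →₀ A, (∀ s ∈ g.support, s ∈ R) ∧ c = comb ι β g

/-- The monomials of degree `d` regular on the chart `V_S`. -/
def regd (d : ℤ) (S : Finset (Fin 3)) : Set Idx :=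
  {s | ∀ r, r ∉ S → 0 ≤ expo s r + (if r = 2 then d else 0)}

@[simp] lemma comb_zero (ι : A →+* C) (β : Idx → C) : comb ι β 0 = 0 := by
  simp [comb]

lemma comb_single (ι : A →+* C) (β : Idx → C) (s : Idx) (a : A) :
    comb ι β (Finsupp.single s a) = ι a * β s := by
  simp [comb]

lemma comb_add (ι : A →+* C) (β : Idx → C) (g h : Idx →₀ A) :
    comb ι β (g + h) = comb ι β g + comb ι β h := by
  unfold comb
  exact Finsupp.sum_add_index' (by simp) (by intros; simp [add_mul])

lemma comb_smul (ι : A →+* C) (β : Idx → C) (a : A) (g : Idx →₀ A) :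
    comb ι β (a • g) = ι a * comb ι β g := by
  unfold comb
  rw [Finsupp.sum_smul_index (by simp), Finsupp.sum, Finsupp.sum, Finset.mul_sum]
  exact Finset.sum_congr rfl fun s _ => by rw [map_mul, mul_assoc]

lemma comb_neg (ι : A →+* C) (β : Idx → C) (g : Idx →₀ A) :
    comb ι β (-g) = -comb ι β g := by
  have h := comb_smul ι β (-1) g
  simpa using h

lemma comb_sub (ι : A →+* C) (β : Idx → C) (g h : Idx →₀ A) :
    comb ι β (g - h) = comb ι β g - comb ι β h := by
  rw [sub_eq_add_neg, comb_add, comb_neg, sub_eq_add_neg]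

lemma comb_sum (ι : A →+* C) (β : Idx → C) {I : Type} (s : Finset I) (g : I → Idx →₀ A) :
    comb ι β (∑ i ∈ s, g i) = ∑ i ∈ s, comb ι β (g i) := by
  classical
  induction s using Finset.induction_on with
  | empty => simp
  | insert a s ha ih => rw [Finset.sum_insert ha, Finset.sum_insert ha, comb_add, ih]

/-- Base change of linear combinations. -/
lemma comb_map {A' C' : Type} [CommRing A'] [CommRing C'] (ι : A →+* C) (ι' : A' →+* C')
    (φ : A →+* A') (ψ : C →+* C') (h : ∀ a, ψ (ι a) = ι' (φ a)) (β : Idx → C) (g : Idx →₀ A) :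
    ψ (comb ι β g) = comb ι' (fun s => ψ (β s)) (g.mapRange φ (map_zero φ)) := by
  unfold comb
  rw [Finsupp.sum_mapRange_index (by simp), Finsupp.sum, map_sum]
  exact Finset.sum_congr rfl fun s _ => by rw [map_mul, h]

lemma InSpan.zero (ι : A →+* C) (β : Idx → C) (R : Set Idx) : InSpan ι β R 0 :=
  ⟨0, by simp, by simp⟩

lemma InSpan.of_mem {ι : A →+* C} {β : Idx → C} {R : Set Idx} {s : Idx} (hs : s ∈ R) :
    InSpan ι β R (β s) := by
  refine ⟨Finsupp.single s 1, ?_, by simp [comb_single]⟩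
  intro t ht
  have := Finsupp.support_single_subset ht
  rw [Finset.mem_singleton] at this
  rw [this]
  exact hs

lemma InSpan.add {ι : A →+* C} {β : Idx → C} {R : Set Idx} {c d : C} (hc : InSpan ι β R c)
    (hd : InSpan ι β R d) : InSpan ι β R (c + d) := by
  classical
  obtain ⟨g, hg, rfl⟩ := hc
  obtain ⟨h, hh, rfl⟩ := hd
  refine ⟨g + h, fun s hs => ?_, (comb_add ι β g h).symm⟩
  rcases Finset.mem_union.mp (Finsupp.support_add hs) with h1 | h1
  · exact hg s h1
  · exact hh s h1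

lemma InSpan.smul {ι : A →+* C} {β : Idx → C} {R : Set Idx} {c : C} (a : A)
    (hc : InSpan ι β R c) : InSpan ι β R (ι a * c) := by
  obtain ⟨g, hg, rfl⟩ := hc
  exact ⟨a • g, fun s hs => hg s (Finsupp.support_smul hs), (comb_smul ι β a g).symm⟩

lemma InSpan.neg {ι : A →+* C} {β : Idx → C} {R : Set Idx} {c : C}
    (hc : InSpan ι β R c) : InSpan ι β R (-c) := by
  simpa using hc.smul (-1)

lemma InSpan.sub {ι : A →+* C} {β : Idx → C} {R : Set Idx} {c d : C} (hc : InSpan ι β R c)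
    (hd : InSpan ι β R d) : InSpan ι β R (c - d) := by
  rw [sub_eq_add_neg]
  exact hc.add hd.neg

lemma InSpan.sum {ι : A →+* C} {β : Idx → C} {R : Set Idx} {I : Type} (s : Finset I)
    {c : I → C} (hc : ∀ i ∈ s, InSpan ι β R (c i)) : InSpan ι β R (∑ i ∈ s, c i) := by
  classical
  induction s using Finset.induction_on with
  | empty => simpa using InSpan.zero ι β R
  | insert a s ha ih =>
    rw [Finset.sum_insert ha]
    exact (hc a (Finset.mem_insert_self a s)).add
      (ih fun i hi => hc i (Finset.mem_insert_of_mem hi))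

lemma InSpan.mono {ι : A →+* C} {β : Idx → C} {R R' : Set Idx} (h : R ⊆ R') {c : C}
    (hc : InSpan ι β R c) : InSpan ι β R' c := by
  obtain ⟨g, hg, rfl⟩ := hc
  exact ⟨g, fun s hs => h (hg s hs), rfl⟩

/-- To be in the span it suffices that all terms are. -/
lemma InSpan.of_terms {ι : A →+* C} {β β' : Idx → C} {R : Set Idx} (g : Idx →₀ A)
    (h : ∀ s ∈ g.support, InSpan ι β R (β' s)) : InSpan ι β R (comb ι β' g) := by
  unfold comb
  exact InSpan.sum _ fun s hs => (h s hs).smul (g s)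

/-- Multiplication of a monomial by `X^a Y^b`. -/
lemma mon_shift (q : Quad C) (a b : ℤ) (s : Idx) :
    ((q.X ^ a : Cˣ) : C) * ((q.Y ^ b : Cˣ) : C) * q.mon s
      = q.mon (s.1 + a, s.2.1 + b, s.2.2) := by
  unfold Quad.mon
  simp only [zpow_add, Units.val_mul]
  ring

/-- Multiplication of a linear combination by `X^a Y^b`. -/
lemma InSpan.shift {ι : A →+* C} {q : Quad C} {R R' : Set Idx} (a b : ℤ)
    (h : ∀ s ∈ R, ((s.1 + a, s.2.1 + b, s.2.2) : Idx) ∈ R') {c : C}
    (hc : InSpan ι q.mon R c) :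
    InSpan ι q.mon R' (((q.X ^ a : Cˣ) : C) * ((q.Y ^ b : Cˣ) : C) * c) := by
  obtain ⟨g, hg, rfl⟩ := hc
  have : ((q.X ^ a : Cˣ) : C) * ((q.Y ^ b : Cˣ) : C) * comb ι q.mon g
      = comb ι (fun s => ((q.X ^ a : Cˣ) : C) * ((q.Y ^ b : Cˣ) : C) * q.mon s) g := by
    unfold comb
    rw [Finsupp.sum, Finsupp.sum, Finset.mul_sum]
    exact Finset.sum_congr rfl fun s _ => by ring
  rw [this]
  refine InSpan.of_terms g fun s hs => ?_
  simp only [mon_shift]
  exact InSpan.of_mem (h s (hg s hs))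

lemma Quad.mon_zero (q : Quad C) : q.mon (0, 0, 0) = 1 := by
  simp [Quad.mon, Quad.e]

lemma Quad.mon_X (q : Quad C) : q.mon (1, 0, 0) = q.X := by
  simp [Quad.mon, Quad.e]

lemma Quad.mon_Y (q : Quad C) : q.mon (0, 1, 0) = q.Y := by
  simp [Quad.mon, Quad.e]

lemma Quad.mon_n (q : Quad C) : q.mon (0, 0, 1) = q.n := by
  simp [Quad.mon, Quad.e]

lemma Quad.mon_w (q : Quad C) : q.mon (0, 0, 2) = q.w := by
  simp [Quad.mon, Quad.e]

lemma Quad.map_e {C' : Type} [CommRing C'] (ρ : C →+* C') (q : Quad C) (t : Fin 4) :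
    (q.map ρ).e t = ρ (q.e t) := by
  fin_cases t <;> simp [Quad.map, Quad.e]

lemma Quad.map_mon {C' : Type} [CommRing C'] (ρ : C →+* C') (q : Quad C) (s : Idx) :
    (q.map ρ).mon s = ρ (q.mon s) := by
  unfold Quad.mon
  rw [map_mul, map_mul, Quad.map_e]
  congr 1
  have hX : ((q.map ρ).X ^ s.1 : C'ˣ) = Units.map ρ.toMonoidHom (q.X ^ s.1) := by
    rw [map_zpow]; rfl
  have hY : ((q.map ρ).Y ^ s.2.1 : C'ˣ) = Units.map ρ.toMonoidHom (q.Y ^ s.2.1) := by
    rw [map_zpow]; rfl
  rw [hX, hY]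
  rfl

lemma Quad.map_vec {C' : Type} [CommRing C'] (ρ : C →+* C') (q : Quad C) (r : Fin 3) :
    (q.map ρ).vec r = ρ (q.vec r) := by
  fin_cases r <;> simp [Quad.map, Quad.vec]

/-- Evaluation commutes with base change. -/
lemma Quad.map_ev {A' C' : Type} [CommRing A'] [CommRing C'] (ι : A →+* C) (ι' : A' →+* C')
    (φ : A →+* A') (ψ : C →+* C') (h : ∀ a, ψ (ι a) = ι' (φ a)) (q : Quad C)
    (p : MvPolynomial (Fin 3) A) :
    ψ (q.ev ι p) = (q.map ψ).ev ι' (MvPolynomial.map φ p) := by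
  unfold Quad.ev
  rw [MvPolynomial.eval₂_map, MvPolynomial.hom_eval₂]
  congr 1
  · ext a
    exact h a
  · funext r
    rw [Quad.map_vec]

lemma Quad.ev_add (ι : A →+* C) (q : Quad C) (p p' : MvPolynomial (Fin 3) A) :
    q.ev ι (p + p') = q.ev ι p + q.ev ι p' := MvPolynomial.eval₂_add ..

lemma Quad.ev_mul (ι : A →+* C) (q : Quad C) (p p' : MvPolynomial (Fin 3) A) :
    q.ev ι (p * p') = q.ev ι p * q.ev ι p' := MvPolynomial.eval₂_mul ..

lemma Quad.ev_C (ι : A →+* C) (q : Quad C) (a : A) :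
    q.ev ι (MvPolynomial.C a) = ι a := MvPolynomial.eval₂_C ..

lemma Quad.ev_X (ι : A →+* C) (q : Quad C) (r : Fin 3) :
    q.ev ι (MvPolynomial.X r) = q.vec r := MvPolynomial.eval₂_X ..

/-- Relations are preserved by base change. -/
lemma Quad.Rel.map {A' C' : Type} [CommRing A'] [CommRing C'] {ι : A →+* C} {ι' : A' →+* C'}
    (φ : A →+* A') (ψ : C →+* C') (h : ∀ a, ψ (ι a) = ι' (φ a)) {q : Quad C} {D : Data A}
    (hq : q.Rel ι D) : (q.map ψ).Rel ι' (D.map φ) := by
  constructor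
  · have := congrArg ψ hq.r1
    simp only [map_add, map_mul, map_pow, map_zero, Quad.map_ev ι ι' φ ψ h] at this
    exact this
  · have := congrArg ψ hq.r2
    simp only [map_add, map_mul, map_pow, map_zero, Quad.map_ev ι ι' φ ψ h] at this
    exact this

end

/-- Homogeneity of the standard datum. -/
lemma cStd_hom (A : Type) [CommRing A] : (cStd A).IsHomogeneous 4 := by
  unfold cStd
  have h := fun i : Fin 3 => MvPolynomial.isHomogeneous_X A i
  exact (((((h 0).pow 3).mul (h 2)).add (((h 1).pow 3).mul (h 2))).add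
    ((h 0).mul ((h 2).pow 3))).add ((h 1).mul ((h 2).pow 3))

lemma eStd_hom (A : Type) [CommRing A] : (eStd A).IsHomogeneous 10 := by
  unfold eStd
  have h := fun i : Fin 3 => MvPolynomial.isHomogeneous_X A i
  exact (((h 0).mul ((h 2).pow 9)).add ((h 0).pow 10)).add
    ((((h 0).pow 3).mul ((h 1).pow 3)).mul (cStd_hom A))

lemma std_hom {A : Type} [CommRing A] (t : A) : (std t).Homog := by
  have h := fun i : Fin 3 => MvPolynomial.isHomogeneous_X A i
  have hC := fun a : A => MvPolynomial.isHomogeneous_C (Fin 3) a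
  constructor
  · exact (h 0).mul (h 1)
  · exact cStd_hom A
  · exact ((hC (1 - t)).mul ((h 0).pow 5)).add ((h 1).pow 5)
  · exact MvPolynomial.isHomogeneous_zero _ _ _
  · exact (eStd_hom A).sub ((hC t).mul (((h 0).pow 5).mul ((h 1).pow 5)))
  · exact (hC (1 - t)).mul (((h 0).pow 4).mul ((h 1).pow 4))

lemma std_map {A A' : Type} [CommRing A] [CommRing A'] (φ : A →+* A') (t : A) :
    (std t).map φ = std (φ t) := by
  ext1 <;> simp [std, Data.map, cStd, eStd]

end Pool.Agent.H1.CM
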