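import Pool.Agent.H78.CM.Targets

/-!
# Module CLU: limits give one-parameter groups
-/

set_option autoImplicit false

open Filter Topology

universe u

namespace Pool.Agent.H1.CM.CLU

open Pool.Agent.H78.CM

/-- a sequence in a compact space converges along some ultrafilter -/
theorem exists_lim {K : Type u} [TopologicalSpace K] [CompactSpace K] (x : ℕ → K)
    (G : Filter ℕ) [G.NeBot] :
    ∃ F : Filter ℕ, F.NeBot ∧ F ≤ G ∧ ∃ l, Tendsto x F (𝓝 l) := by
  let F : Ultrafilter ℕ := Ultrafilter.of G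
  obtain ⟨l, -, hl⟩ := isCompact_univ.ultrafilter_le_nhds (F.map x) (by simp)
  exact ⟨F, F.neBot, Ultrafilter.of_le G, l, hl⟩

section

variable {K : Type u} [Group K] [TopologicalSpace K] {T : ℝ → Set K}

theorem one_mem (hT : OneP T) : (1 : K) ∈ T 0 := by
  obtain ⟨k, hk⟩ := hT.ne 0
  have h := hT.mul _ _ _ _ hk (hT.inv _ _ hk)
  simpa using h

theorem pow_mem (hT : OneP T) {s : ℝ} {k : K} (hk : k ∈ T s) (n : ℕ) : k ^ n ∈ T (n * s) := by
  induction n with
  | zero => simpa using one_mem hT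
  | succ n ih =>
    have h := hT.mul _ _ _ _ ih hk
    rw [pow_succ]
    convert h using 1
    congr 1
    push_cast
    ring

theorem mem_of_tendsto (hT : OneP T) {F : Filter ℕ} [F.NeBot] {s : ℕ → ℝ} {k : ℕ → K} {s₀ : ℝ}
    {l : K} (hs : Tendsto s F (𝓝 s₀)) (hk : Tendsto k F (𝓝 l)) (h : ∀ m, k m ∈ T (s m)) :
    l ∈ T s₀ := by
  have h1 : Tendsto (fun m => (s m, k m)) F (𝓝 (s₀, l)) := hs.prodMk_nhds hk
  have h2 : (s₀, l) ∈ {p : ℝ × K | p.2 ∈ T p.1} :=
    hT.closed.mem_of_tendsto h1 (Eventually.of_forall h)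
  exact h2

end

theorem X (h : T_LIM) : T_CLU.{u} := by
  intro K _ _ _ _ T hT A _ _ _ _ τ hτ k s ν s₀ Y hk hν h0 hs hY
  have key : ∀ t : ℝ, 0 ≤ t → ∃ l ∈ T (s₀ * t), τ l = NormedSpace.exp (t • Y) := by
    intro t ht
    have hl := h A (fun m => τ (k m)) ν Y hν h0 hY t ht
    set n : ℕ → ℕ := fun m => ⌊t / ν m⌋₊ with hn
    have hnν : ∀ m, (n m : ℝ) * ν m ≤ t := fun m => by
      have := Nat.floor_le (div_nonneg ht (hν m).le)
      rw [← le_div_iff₀ (hν m)]
      exact this
    have hnν' : ∀ m, t - ν m ≤ (n m : ℝ) * ν m := fun m => by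
      have := (Nat.lt_floor_add_one (t / ν m)).le
      rw [div_le_iff₀ (hν m)] at this
      have h2 : ((⌊t / ν m⌋₊ : ℝ) + 1) * ν m = (n m : ℝ) * ν m + ν m := by rw [hn]; ring
      linarith
    have hnt : Tendsto (fun m => (n m : ℝ) * ν m) atTop (𝓝 t) := by
      have h1 : Tendsto (fun m => t - ν m) atTop (𝓝 t) := by
        simpa using (tendsto_const_nhds (x := t)).sub h0
      exact tendsto_of_tendsto_of_tendsto_of_le_of_le h1 tendsto_const_nhds hnν' hnν
    have hns : Tendsto (fun m => (n m : ℝ) * s m) atTop (𝓝 (s₀ * t)) := by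
      have h1 := hnt.mul hs
      have h2 : (fun m => (n m : ℝ) * ν m * (s m / ν m)) = fun m => (n m : ℝ) * s m := by
        funext m
        field_simp [(hν m).ne']
      rw [h2, mul_comm t s₀] at h1
      exact h1
    obtain ⟨F, hF, hF1, l, hl1⟩ := exists_lim (fun m => k m ^ n m) atTop
    refine ⟨l, mem_of_tendsto hT (hns.mono_left hF1) hl1 fun m => pow_mem hT (hk m) (n m), ?_⟩
    have h3 : Tendsto (fun m => τ (k m ^ n m)) F (𝓝 (τ l)) := (hτ.tendsto l).comp hl1
    have h4 : Tendsto (fun m => τ (k m ^ n m)) F (𝓝 (NormedSpace.exp (t • Y))) := by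
      have h5 := hl.mono_left hF1
      simpa only [map_pow] using h5
    exact tendsto_nhds_unique h3 h4
  intro t
  rcases le_or_gt 0 t with ht | ht
  · exact key t ht
  · obtain ⟨l, hl, hl1⟩ := key (-t) (by linarith)
    refine ⟨l⁻¹, by have := hT.inv _ _ hl; simpa using this, ?_⟩
    letI : NormedAlgebra ℚ A := NormedAlgebra.restrictScalars ℚ ℝ A
    have h6 : NormedSpace.exp (t • Y) * NormedSpace.exp ((-t) • Y) = 1 := by
      rw [← NormedSpace.exp_add_of_commute (((Commute.refl Y).smul_left t).smul_right (-t)),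
        ← add_smul, add_neg_cancel, zero_smul, NormedSpace.exp_zero]
    have h7 : NormedSpace.exp ((-t) • Y) * τ l⁻¹ = 1 := by
      rw [← hl1, ← map_mul, mul_inv_cancel, map_one]
    calc τ l⁻¹ = (NormedSpace.exp (t • Y) * NormedSpace.exp ((-t) • Y)) * τ l⁻¹ := by
          rw [h6, one_mul]
      _ = NormedSpace.exp (t • Y) := by rw [mul_assoc, h7, mul_one]

end Pool.Agent.H1.CM.CLU
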