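import Pool.Agent.H1.CM.LIM
import Pool.Agent.H1.CM.CLU

/-!
# Module CNV: the set of the lifts is closed and midpoint convex
-/

set_option autoImplicit false

open Filter Topology

universe u

namespace Pool.Agent.H1.CM.CNV

open Pool.Agent.H78.CM Pool.Agent.H1.CM.LIM Pool.Agent.H1.CM.CLU

theorem X (h : T_CLU.{u}) : T_CNV.{u} := by
  intro K _ _ _ _ T hT A _ _ _ _ τ hτ
  constructor
  · refine IsSeqClosed.isClosed fun b b₀ hb hb₀ t => ?_
    choose l hl hl1 using fun m => hb m t
    obtain ⟨F, hF, hF1, l₀, hl₀⟩ := exists_lim l atTop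
    refine ⟨l₀, mem_of_tendsto hT (s := fun _ => t) tendsto_const_nhds hl₀ hl, ?_⟩
    have h1 : Tendsto (fun m => τ (l m)) F (𝓝 (τ l₀)) := (hτ.tendsto l₀).comp hl₀
    have h2 : Tendsto (fun m => NormedSpace.exp (t • b m)) F (𝓝 (NormedSpace.exp (t • b₀))) :=
      ((exp_cont (A := A)).tendsto _).comp ((hb₀.mono_left hF1).const_smul t)
    have h3 : (fun m => τ (l m)) = fun m => NormedSpace.exp (t • b m) := funext hl1
    rw [h3] at h1
    exact tendsto_nhds_unique h1 h2
  · intro b b' hb hb' t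
    set ε : ℕ → ℝ := fun m => 1 / ((m : ℝ) + 1) with hε
    have hε0 : ∀ m, 0 < ε m := fun m => by positivity
    have hε1 : Tendsto ε atTop (𝓝 0) := tendsto_one_div_add_atTop_nhds_zero_nat
    choose k hk hk1 using fun m => hb (ε m / 2)
    choose k' hk' hk1' using fun m => hb' (ε m / 2)
    have h1 : ∀ m, k m * k' m ∈ T (ε m) := fun m => by
      have := hT.mul _ _ _ _ (hk m) (hk' m)
      simpa using this
    have h2 : Tendsto (fun m => ε m / ε m) atTop (𝓝 1) := by
      have : (fun m => ε m / ε m) = fun _ => 1 := by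
        funext m; exact div_self (hε0 m).ne'
      rw [this]; exact tendsto_const_nhds
    have h3 : Tendsto (fun m => (ε m)⁻¹ • (τ (k m * k' m) - 1)) atTop
        (𝓝 ((1 / 2 : ℝ) • (b + b'))) := by
      have h4 : HasDerivAt (fun u : ℝ => NormedSpace.exp (u • ((1 / 2 : ℝ) • b)) *
          NormedSpace.exp (u • ((1 / 2 : ℝ) • b'))) ((1 / 2 : ℝ) • (b + b')) 0 := by
        have h5 := hasDerivAt_exp_smul_const (𝕂 := ℝ) ((1 / 2 : ℝ) • b) 0
        have h6 := hasDerivAt_exp_smul_const (𝕂 := ℝ) ((1 / 2 : ℝ) • b') 0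
        have h7 := h5.mul h6
        simp only [zero_smul, NormedSpace.exp_zero, one_mul, mul_one] at h7
        rw [smul_add]
        exact h7
      have h8 := (hasDerivAt_iff_tendsto_slope_zero).1 h4
      have h9 : Tendsto ε atTop (𝓝[≠] 0) := by
        rw [tendsto_nhdsWithin_iff]
        exact ⟨hε1, Eventually.of_forall fun m => (hε0 m).ne'⟩
      have h10 := h8.comp h9
      refine h10.congr fun m => ?_
      have h11 : ε m * (1 / 2) = ε m / 2 := by ring
      simp only [Function.comp_apply, zero_add, map_mul, hk1, hk1', smul_smul, zero_mul,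
        zero_smul, NormedSpace.exp_zero, mul_one, h11]
    obtain ⟨l, hl, hl1⟩ := h K T hT A τ hτ (fun m => k m * k' m) ε ε 1 _ h1 hε0 hε1 h2 h3 t
    exact ⟨l, by simpa using hl, hl1⟩

end Pool.Agent.H1.CM.CNV
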