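import Mathlib
import Pool.Agent.H1.CM.Defs
import Pool.Agent.H1.CM.Basic

/-!
# Targets 1: algebra (local algebra, Čech lemmas, deformation theory, normal form)
-/

namespace Pool.Agent.H1.CM

open IsLocalRing

/-! ## General algebra over Artinian local rings -/

/-- Induction over ideals of an Artinian local ring. -/
def T_IND : Prop := ∀ (A : Type) [CommRing A] [IsLocalRing A] [IsArtinianRing A]
  (Q : Ideal A → Prop), Q (maximalIdeal A) →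
  (∀ (J : Ideal A) (t : A), J ≤ maximalIdeal A → t ∈ maximalIdeal A → t ∉ J →
    (∀ m ∈ maximalIdeal A, m * t ∈ J) → Q (J ⊔ Ideal.span {t}) → Q J) → Q ⊥

/-- A family in a flat module which is a basis modulo the maximal ideal is a basis. -/
def T_FLB : Prop := ∀ (A : Type) [CommRing A] [IsLocalRing A] [IsArtinianRing A]
  (M : Type) [AddCommGroup M] [Module A M] [Module.Flat A M] (I : Type) (v : I → M),
  (∀ x : M, ∃ g : I →₀ A,
    x - Finsupp.linearCombination A v g ∈ (maximalIdeal A • ⊤ : Submodule A M)) →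
  (∀ g : I →₀ A, Finsupp.linearCombination A v g ∈ (maximalIdeal A • ⊤ : Submodule A M) →
    ∀ i, g i ∈ maximalIdeal A) →
  Function.Bijective (Finsupp.linearCombination A v)

/-- An endomorphism of a free module which is the identity modulo the maximal ideal is
bijective, also on every coordinate submodule which it preserves. -/
def T_NIL : Prop := ∀ (A : Type) [CommRing A] [IsLocalRing A] [IsArtinianRing A]
  (I : Type) (E : (I →₀ A) →ₗ[A] (I →₀ A)),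
  (∀ g i, (E g - g) i ∈ maximalIdeal A) →
  Function.Bijective E ∧
  ∀ R : Set I, (∀ g : I →₀ A, (∀ i ∈ g.support, i ∈ R) → ∀ i ∈ (E g).support, i ∈ R) →
    ∀ g : I →₀ A, (∀ i ∈ g.support, i ∈ R) →
      ∃ g' : I →₀ A, (∀ i ∈ g'.support, i ∈ R) ∧ E g' = g

/-! ## Čech cohomology with three charts, one monomial at a time -/

/-- `H¹(X₀, O(d)) = 0`. -/
def T_OV : Prop := ∀ (V : Type) [AddCommGroup V] (d : ℤ) (g01 g12 g20 : Idx →₀ V),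
  (∀ s ∈ g01.support, s ∈ regd d {0, 1}) → (∀ s ∈ g12.support, s ∈ regd d {1, 2}) →
  (∀ s ∈ g20.support, s ∈ regd d {0, 2}) → g01 + g12 + g20 = 0 →
  ∃ g0 g1 g2 : Idx →₀ V, (∀ s ∈ g0.support, s ∈ regd d {0}) ∧
    (∀ s ∈ g1.support, s ∈ regd d {1}) ∧ (∀ s ∈ g2.support, s ∈ regd d {2}) ∧
    g01 = g0 - g1 ∧ g12 = g1 - g2 ∧ g20 = g2 - g0

/-- Logarithmic vector fields `(θ, φ)` regular along `x = 0` (exponent `e` of `x`). -/
def EX {V : Type} [AddCommGroup V] (e : ℤ) (θ φ : V) : Prop :=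
  (e ≤ -2 → θ = 0 ∧ φ = 0) ∧ (e = -1 → φ = 0)

/-- The same along `y = 0`. -/
def EY {V : Type} [AddCommGroup V] (e : ℤ) (θ φ : V) : Prop :=
  (e ≤ -2 → θ = 0 ∧ φ = 0) ∧ (e = -1 → θ = 0)

/-- The same along `z = 0`. -/
def EZ {V : Type} [AddCommGroup V] (e : ℤ) (θ φ : V) : Prop :=
  (e ≤ -2 → θ = 0 ∧ φ = 0) ∧ (e = -1 → θ = φ)

/-- `H¹(X₀, p^*T) = 0`. -/
def T_TV : Prop := ∀ (V : Type) [AddCommGroup V]
  (θ01 φ01 θ12 φ12 θ20 φ20 : Idx →₀ V),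
  (∀ s, EZ (expo s 2) (θ01 s) (φ01 s)) → (∀ s, EX (expo s 0) (θ12 s) (φ12 s)) →
  (∀ s, EY (expo s 1) (θ20 s) (φ20 s)) → θ01 + θ12 + θ20 = 0 → φ01 + φ12 + φ20 = 0 →
  ∃ a0 b0 a1 b1 a2 b2 : Idx →₀ V,
    (∀ s, EY (expo s 1) (a0 s) (b0 s) ∧ EZ (expo s 2) (a0 s) (b0 s)) ∧
    (∀ s, EX (expo s 0) (a1 s) (b1 s) ∧ EZ (expo s 2) (a1 s) (b1 s)) ∧
    (∀ s, EX (expo s 0) (a2 s) (b2 s) ∧ EY (expo s 1) (a2 s) (b2 s)) ∧
    θ01 = a0 - a1 ∧ φ01 = b0 - b1 ∧ θ12 = a1 - a2 ∧ φ12 = b1 - b2 ∧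
    θ20 = a2 - a0 ∧ φ20 = b2 - b0

/-! ## The context: a deformation over an Artinian local ring -/

/-- The Čech data of a deformation over `A` of a surface over `k`. -/
structure Ctx {A k C C₀ : Type} [CommRing A] [Field k] [CommRing C] [CommRing C₀]
    (π : A →+* k) (ι : A →+* C) (B : Finset (Fin 3) → Subring C) (ι₀ : k →+* C₀) (q₀ : Quad C₀)
    (ρ : C →+* C₀) : Prop extends LinCech π ι B ι₀ q₀ ρ where
  surj : Function.Surjective π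
  fr₀ : Function.Bijective (comb ι₀ q₀.mon)

/-- Elementary properties of the reduction. -/
def T_RED : Prop := ∀ {A k C C₀ : Type} [CommRing A] [IsLocalRing A] [IsArtinianRing A] [Field k]
  [CommRing C] [CommRing C₀] (π : A →+* k) (ι : A →+* C) (B : Finset (Fin 3) → Subring C)
  (ι₀ : k →+* C₀) (q₀ : Quad C₀) (ρ : C →+* C₀), Ctx π ι B ι₀ q₀ ρ →
  (∀ c₀, ∃ c, ρ c = c₀) ∧
  (∀ S : Finset (Fin 3), S.Nonempty → ∀ c ∈ B S, InSpan ι₀ q₀.mon (reg S) (ρ c)) ∧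
  (∀ S : Finset (Fin 3), S.Nonempty → ∀ c₀, InSpan ι₀ q₀.mon (reg S) c₀ →
    ∃ c ∈ B S, ρ c = c₀) ∧
  (∀ c, ρ c = 0 ↔ c ∈ Ideal.map ι (maximalIdeal A)) ∧
  (∀ S : Finset (Fin 3), S.Nonempty → ∀ c ∈ B S, ∀ d₀, InSpan ι₀ q₀.mon (reg S) d₀ →
    ρ c * d₀ = 1 → ∃ d ∈ B S, c * d = 1) ∧
  (∀ c, IsUnit (ρ c) → IsUnit c)

/-- Elementary properties of a small extension. -/
def T_REDT : Prop := ∀ {A k C C₀ : Type} [CommRing A] [IsLocalRing A] [IsArtinianRing A] [Field k]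
  [CommRing C] [CommRing C₀] (π : A →+* k) (ι : A →+* C) (B : Finset (Fin 3) → Subring C)
  (ι₀ : k →+* C₀) (q₀ : Quad C₀) (ρ : C →+* C₀), Ctx π ι B ι₀ q₀ ρ →
  ∀ (J : Ideal A) (t : A), J ≤ maximalIdeal A → t ∈ maximalIdeal A → t ∉ J →
  (∀ m ∈ maximalIdeal A, m * t ∈ J) →
  (∀ c, ι t * c ∈ Ideal.map ι J ↔ ρ c = 0) ∧
  (∀ S : Finset (Fin 3), S.Nonempty → ∀ b ∈ B S, ∀ c, b - ι t * c ∈ Ideal.map ι J →
    InSpan ι₀ q₀.mon (reg S) (ρ c)) ∧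
  (∀ c ∈ Ideal.map ι (J ⊔ Ideal.span {t}), ∃ γ, c - ι t * γ ∈ Ideal.map ι J)

/-- The map to the projective plane extends. -/
def T_PX : Prop := ∀ {A k C C₀ : Type} [CommRing A] [IsLocalRing A] [IsArtinianRing A] [Field k]
  [CommRing C] [CommRing C₀] (π : A →+* k) (ι : A →+* C) (B : Finset (Fin 3) → Subring C)
  (ι₀ : k →+* C₀) (q₀ : Quad C₀) (ρ : C →+* C₀), Ctx π ι B ι₀ q₀ ρ →
  ∃ X Y : Cˣ, ρ X = q₀.X ∧ ρ Y = q₀.Y ∧ (X : C) ∈ B {2} ∧ (Y : C) ∈ B {2} ∧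
    ((X⁻¹ : Cˣ) : C) ∈ B {0} ∧ (Y : C) * ((X⁻¹ : Cˣ) : C) ∈ B {0} ∧
    ((Y⁻¹ : Cˣ) : C) ∈ B {1} ∧ (X : C) * ((Y⁻¹ : Cˣ) : C) ∈ B {1}

/-- Sections of line bundles extend. -/
def T_LS : Prop := ∀ {A k C C₀ : Type} [CommRing A] [IsLocalRing A] [IsArtinianRing A] [Field k]
  [CommRing C] [CommRing C₀] (π : A →+* k) (ι : A →+* C) (B : Finset (Fin 3) → Subring C)
  (ι₀ : k →+* C₀) (q₀ : Quad C₀) (ρ : C →+* C₀), Ctx π ι B ι₀ q₀ ρ →
  ∀ (d : ℤ) (g : Fin 3 → Cˣ), (∀ i j, (((g i) * (g j)⁻¹ : Cˣ) : C) ∈ B {i, j}) →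
  ρ (g 0) = ((q₀.X ^ d : C₀ˣ) : C₀) → ρ (g 1) = ((q₀.Y ^ d : C₀ˣ) : C₀) → ρ (g 2) = 1 →
  ∀ s₀ : C₀, InSpan ι₀ q₀.mon (regd d ∅) s₀ →
  ∃ s : C, ρ s = s₀ ∧ ∀ i, s * (((g i)⁻¹ : Cˣ) : C) ∈ B {i}

/-- The coordinates extend. -/
def T_EXQ : Prop := ∀ {A k C C₀ : Type} [CommRing A] [IsLocalRing A] [IsArtinianRing A] [Field k]
  [CommRing C] [CommRing C₀] (π : A →+* k) (ι : A →+* C) (B : Finset (Fin 3) → Subring C)
  (ι₀ : k →+* C₀) (q₀ : Quad C₀) (ρ : C →+* C₀), Ctx π ι B ι₀ q₀ ρ →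
  ∃ q : Quad C, q.map ρ = q₀ ∧ Coord B q

/-- The monomials of adapted coordinates lie in the chart rings. -/
def T_MEM : Prop := ∀ {C : Type} [CommRing C] (B : Finset (Fin 3) → Subring C) (q : Quad C),
  (∀ S T : Finset (Fin 3), S.Nonempty → S ⊆ T → B S ≤ B T) → Coord B q →
  ∀ S : Finset (Fin 3), S.Nonempty → ∀ s ∈ reg S, q.mon s ∈ B S

/-- The monomials of adapted coordinates form a basis. -/
def T_BAS : Prop := ∀ {A k C C₀ : Type} [CommRing A] [IsLocalRing A] [IsArtinianRing A] [Field k]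
  [CommRing C] [CommRing C₀] (π : A →+* k) (ι : A →+* C) (B : Finset (Fin 3) → Subring C)
  (ι₀ : k →+* C₀) (q₀ : Quad C₀) (ρ : C →+* C₀), Ctx π ι B ι₀ q₀ ρ →
  ∀ q : Quad C, q.map ρ = q₀ → Coord B q → Frame ι q.mon B

/-- A frame has adapted coordinates. -/
def T_FC : Prop := ∀ {A C : Type} [CommRing A] [CommRing C] (ι : A →+* C)
  (B : Finset (Fin 3) → Subring C) (q : Quad C), Frame ι q.mon B → Coord B q

/-- The polynomial forms `P 0 + P 1 n + P 2 w + P 3 nw` of degree `d`. -/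
structure Forms4 {A : Type} [CommRing A] (d : ℕ) (P : Fin 4 → MvPolynomial (Fin 3) A) : Prop where
  hom : ∀ t, dgN t ≤ d → (P t).IsHomogeneous (d - dgN t)
  zero : ∀ t, d < dgN t → P t = 0

/-- The value of a form. -/
noncomputable def ev4 {A C : Type} [CommRing A] [CommRing C] (ι : A →+* C) (q : Quad C)
    (P : Fin 4 → MvPolynomial (Fin 3) A) : C :=
  ∑ t : Fin 4, q.ev ι (P t) * q.e t

/-- Forms are determined by their values. -/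
def T_UNQ : Prop := ∀ {A C : Type} [CommRing A] [CommRing C] (ι : A →+* C) (q : Quad C),
  Function.Injective (comb ι q.mon) → ∀ (d : ℕ) (P P' : Fin 4 → MvPolynomial (Fin 3) A),
  Forms4 d P → Forms4 d P' → ev4 ι q P = ev4 ι q P' → P = P'

/-- Elements of `regd d ∅` are values of forms. -/
def T_FORM : Prop := ∀ {A C : Type} [CommRing A] [CommRing C] (ι : A →+* C) (q : Quad C)
  (d : ℕ) (c : C), InSpan ι q.mon (regd d ∅) c ↔
    ∃ P : Fin 4 → MvPolynomial (Fin 3) A, Forms4 d P ∧ c = ev4 ι q P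

/-- `H⁰(X, O(d))`. -/
def T_H0 : Prop := ∀ {A C : Type} [CommRing A] [CommRing C] (ι : A →+* C)
  (B : Finset (Fin 3) → Subring C) (q : Quad C), Frame ι q.mon B → Coord B q →
  ∀ (d : ℕ) (c : C), (InSpan ι q.mon (regd d ∅) c ↔
    (c ∈ B {2} ∧ c * ((q.X⁻¹ : Cˣ) : C) ^ d ∈ B {0} ∧ c * ((q.Y⁻¹ : Cˣ) : C) ^ d ∈ B {1}))

/-- The datum of adapted coordinates. -/
def T_DATA : Prop := ∀ {A k C C₀ : Type} [CommRing A] [IsLocalRing A] [IsArtinianRing A] [Field k]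
  [CommRing C] [CommRing C₀] (π : A →+* k) (ι : A →+* C) (B : Finset (Fin 3) → Subring C)
  (ι₀ : k →+* C₀) (q₀ : Quad C₀) (ρ : C →+* C₀), Ctx π ι B ι₀ q₀ ρ →
  ∀ D₀ : Data k, D₀.Homog → q₀.Rel ι₀ D₀ →
  ∀ q : Quad C, q.map ρ = q₀ → Coord B q →
  ∃ D : Data A, D.Homog ∧ q.Rel ι D ∧ D.map π = D₀

/-! ## Comparison of two quadruples -/

/-- `λ (X', Y', 1) = L (X, Y, 1)`, `λ² n' = u n + s`, `λ⁵ w' = u' w + r0 + r1 n`. -/
structure Related {A C : Type} [CommRing A] [CommRing C] (ι : A →+* C) (q q' : Quad C)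
    (L : Fin 3 → Fin 3 → A) (lam : C) (u u' : A) (s r0 r1 : MvPolynomial (Fin 3) A) : Prop where
  hx : lam * q'.X = ι (L 0 0) * q.X + ι (L 0 1) * q.Y + ι (L 0 2)
  hy : lam * q'.Y = ι (L 1 0) * q.X + ι (L 1 1) * q.Y + ι (L 1 2)
  hz : lam = ι (L 2 0) * q.X + ι (L 2 1) * q.Y + ι (L 2 2)
  hn : lam ^ 2 * q'.n = ι u * q.n + q.ev ι s
  hw : lam ^ 5 * q'.w = ι u' * q.w + q.ev ι r0 + q.ev ι r1 * q.n

/-- Linear substitution in a form. -/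
noncomputable def lsub {A : Type} [CommRing A] (L : Fin 3 → Fin 3 → A)
    (p : MvPolynomial (Fin 3) A) : MvPolynomial (Fin 3) A :=
  MvPolynomial.bind₁ (fun i => ∑ j : Fin 3, MvPolynomial.C (L i j) * MvPolynomial.X j) p

/-- Two adapted quadruples with the same `X, Y` modulo the maximal ideal are related. -/
def T_REL : Prop := ∀ {A k C C₀ : Type} [CommRing A] [IsLocalRing A] [IsArtinianRing A] [Field k]
  [CommRing C] [CommRing C₀] (π : A →+* k) (ι : A →+* C) (B : Finset (Fin 3) → Subring C)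
  (ι₀ : k →+* C₀) (q₀ : Quad C₀) (ρ : C →+* C₀), Ctx π ι B ι₀ q₀ ρ →
  ∀ q q' : Quad C, q.map ρ = q₀ → Coord B q → Coord B q' →
  ρ q'.X = q₀.X → ρ q'.Y = q₀.Y →
  ∃ (L : Fin 3 → Fin 3 → A) (lam : C) (u u' : A) (s r0 r1 : MvPolynomial (Fin 3) A),
    Related ι q q' L lam u u' s r0 r1 ∧ s.IsHomogeneous 2 ∧ r0.IsHomogeneous 5 ∧
    r1.IsHomogeneous 3 ∧ (∀ i j, π (L i j) = if i = j then 1 else 0) ∧ ρ lam = 1

/-- Comparison of the data of related quadruples (characteristic 2). -/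
def T_RELD : Prop := ∀ {A C : Type} [CommRing A] [CommRing C] (ι : A →+* C) (q q' : Quad C),
  (2 : A) = 0 → Function.Injective (comb ι q.mon) →
  ∀ (D D' : Data A), D.Homog → D'.Homog → q.Rel ι D → q'.Rel ι D' →
  ∀ (L : Fin 3 → Fin 3 → A) (lam : C) (u u' : A) (s r0 r1 : MvPolynomial (Fin 3) A),
  Related ι q q' L lam u u' s r0 r1 → s.IsHomogeneous 2 → r0.IsHomogeneous 5 →
  r1.IsHomogeneous 3 → IsUnit u → IsUnit u' →
  lsub L D'.a = MvPolynomial.C u * D.a ∧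
  lsub L D'.c = MvPolynomial.C (u ^ 2) * D.c + s ^ 2 + MvPolynomial.C u * D.a * s ∧
  lsub L D'.b1 * MvPolynomial.C u = MvPolynomial.C u' * D.b1 ∧
  lsub L D'.b0 + lsub L D'.b1 * s = MvPolynomial.C u' * D.b0 ∧
  MvPolynomial.C (u' ^ 2) * D.e1 + r1 ^ 2 * D.a
    + MvPolynomial.C u' * (D.b0 * r1 + D.b1 * r0 + D.b1 * r1 * D.a)
    + lsub L D'.e1 * MvPolynomial.C u = 0 ∧
  MvPolynomial.C (u' ^ 2) * D.e0 + r0 ^ 2 + r1 ^ 2 * D.c
    + MvPolynomial.C u' * (D.b0 * r0 + D.b1 * r1 * D.c) + lsub L D'.e0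
    + lsub L D'.e1 * s = 0

/-- Modification of adapted coordinates. -/
def T_MOD : Prop := ∀ {A k C C₀ : Type} [CommRing A] [IsLocalRing A] [IsArtinianRing A] [Field k]
  [CommRing C] [CommRing C₀] (π : A →+* k) (ι : A →+* C) (B : Finset (Fin 3) → Subring C)
  (ι₀ : k →+* C₀) (q₀ : Quad C₀) (ρ : C →+* C₀), Ctx π ι B ι₀ q₀ ρ →
  ∀ q : Quad C, q.map ρ = q₀ → Coord B q →
  ∀ (L : Fin 3 → Fin 3 → A) (u : A) (s : MvPolynomial (Fin 3) A),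
  (∀ i j, π (L i j) = if i = j then 1 else 0) → π u = 1 → s.IsHomogeneous 2 →
  MvPolynomial.map π s = 0 →
  ∃ (q' : Quad C) (lam : C), q'.map ρ = q₀ ∧ Coord B q' ∧ Related ι q q' L lam u 1 s 0 0

/-! ## The normal form -/

/-- Coefficient of `x^i y^j z^l`. -/
noncomputable def cf {A : Type} [CommRing A] (p : MvPolynomial (Fin 3) A) (i j l : ℕ) : A :=
  p.coeff (Finsupp.equivFunOnFinite.symm ![i, j, l])

/-- The forms `a, c` are in normal form modulo `J`: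
`a = xy + κz²`, `c = x³z + y³z + c₁x²z² + c₂xz³ + c₃y²z² + c₄yz³ + c₅z⁴`. -/
structure NormalMod {A : Type} [CommRing A] (J : Ideal A) (a c : MvPolynomial (Fin 3) A) :
    Prop where
  a200 : cf a 2 0 0 ∈ J
  a020 : cf a 0 2 0 ∈ J
  a101 : cf a 1 0 1 ∈ J
  a011 : cf a 0 1 1 ∈ J
  a110 : cf a 1 1 0 - 1 ∈ J
  c400 : cf c 4 0 0 ∈ J
  c040 : cf c 0 4 0 ∈ J
  c301 : cf c 3 0 1 - 1 ∈ J
  c031 : cf c 0 3 1 - 1 ∈ J
  c310 : cf c 3 1 0 ∈ J
  c220 : cf c 2 2 0 ∈ J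
  c130 : cf c 1 3 0 ∈ J
  c211 : cf c 2 1 1 ∈ J
  c121 : cf c 1 2 1 ∈ J
  c112 : cf c 1 1 2 ∈ J

/-- `a, c` are forms of degrees `2, 4` which reduce to `xy` and `cStd`. -/
structure NearStd {A k : Type} [CommRing A] [Field k] (π : A →+* k)
    (a c : MvPolynomial (Fin 3) A) : Prop where
  ha : a.IsHomogeneous 2
  hc : c.IsHomogeneous 4
  ra : MvPolynomial.map π a = MvPolynomial.X 0 * MvPolynomial.X 1
  rc : MvPolynomial.map π c = cStd k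

/-- One step of the normalisation. -/
def T_NORMX : Prop := ∀ {A k : Type} [CommRing A] [IsLocalRing A] [IsArtinianRing A] [Field k]
  (π : A →+* k), Function.Surjective π → (2 : A) = 0 →
  ∀ (J : Ideal A) (t : A), J ≤ maximalIdeal A → t ∈ maximalIdeal A →
  (∀ m ∈ maximalIdeal A, m * t ∈ J) →
  ∀ a c : MvPolynomial (Fin 3) A, NearStd π a c → NormalMod (J ⊔ Ideal.span {t}) a c →
  ∃ (L : Fin 3 → Fin 3 → A) (u : A) (s : MvPolynomial (Fin 3) A),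
    (∀ i j, π (L i j) = if i = j then 1 else 0) ∧ π u = 1 ∧ s.IsHomogeneous 2 ∧
    MvPolynomial.map π s = 0 ∧
    ∀ a' c' : MvPolynomial (Fin 3) A, NearStd π a' c' → lsub L a' = MvPolynomial.C u * a →
      lsub L c' = MvPolynomial.C (u ^ 2) * c + s ^ 2 + MvPolynomial.C u * a * s →
      NormalMod J a' c'

/-- Uniqueness of the normalisation. -/
def T_NORMU : Prop := ∀ {A k : Type} [CommRing A] [IsLocalRing A] [IsArtinianRing A] [Field k]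
  (π : A →+* k), Function.Surjective π → (2 : A) = 0 →
  ∀ a c a' c' : MvPolynomial (Fin 3) A, NearStd π a c → NearStd π a' c' →
  NormalMod ⊥ a c → NormalMod ⊥ a' c' →
  ∀ (L : Fin 3 → Fin 3 → A) (u : A) (s : MvPolynomial (Fin 3) A),
  (∀ i j, π (L i j) = if i = j then 1 else 0) → L 2 2 = 1 → π u = 1 → s.IsHomogeneous 2 →
  MvPolynomial.map π s = 0 → lsub L a' = MvPolynomial.C u * a →
  lsub L c' = MvPolynomial.C (u ^ 2) * c + s ^ 2 + MvPolynomial.C u * a * s →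
  (∀ i j, L i j = if i = j then 1 else 0) ∧ u = 1 ∧ s = 0

/-- Existence of normal coordinates. -/
def T_NFX : Prop := ∀ {A k C C₀ : Type} [CommRing A] [IsLocalRing A] [IsArtinianRing A] [Field k]
  [CommRing C] [CommRing C₀] (π : A →+* k) (ι : A →+* C) (B : Finset (Fin 3) → Subring C)
  (ι₀ : k →+* C₀) (q₀ : Quad C₀) (ρ : C →+* C₀), Ctx π ι B ι₀ q₀ ρ → (2 : A) = 0 →
  q₀.Rel ι₀ (std 0) →
  ∃ (q : Quad C) (D : Data A), q.map ρ = q₀ ∧ Coord B q ∧ D.Homog ∧ q.Rel ι D ∧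
    D.map π = std 0 ∧ NormalMod ⊥ D.a D.c

/-- Comparison of the values of the invariant. -/
def T_CMP : Prop := ∀ {A k C C₀ : Type} [CommRing A] [IsLocalRing A] [IsArtinianRing A] [Field k]
  [CommRing C] [CommRing C₀] (π : A →+* k) (ι : A →+* C) (B : Finset (Fin 3) → Subring C)
  (ι₀ : k →+* C₀) (q₀ : Quad C₀) (ρ : C →+* C₀), Ctx π ι B ι₀ q₀ ρ → (2 : A) = 0 →
  q₀.Rel ι₀ (std 0) →
  ∀ (q q' : Quad C) (D D' : Data A), q.map ρ = q₀ → Coord B q → Coord B q' →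
  D.Homog → D'.Homog → q.Rel ι D → q'.Rel ι D' → D.map π = std 0 → D'.map π = std 0 →
  NormalMod ⊥ D.a D.c → NormalMod ⊥ D'.a D'.c →
  ρ q'.X = q₀.X → ρ q'.Y = q₀.Y → (ρ q'.n = q₀.n ∨ ρ q'.n = q₀.n + q₀.X * q₀.Y) →
  Function.Bijective (comb ι₀ (q'.map ρ).mon) →
  ∃ v : Aˣ, cf D'.b0 5 0 0 = v * cf D.b0 5 0 0 ∧ cf D'.b0 0 5 0 = v * cf D.b0 0 5 0

/-! ## The function field of the special fibre -/

/-- `K` is the function field of the standard surface over `k` (characteristic 2). -/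
structure FFM {k K : Type} [Field k] [Field K] (j : k →+* K) (q : Quad K) : Prop where
  inj : Function.Injective (comb j q.mon)
  frac : ∀ f : K, ∃ g h : Idx →₀ k, comb j q.mon h ≠ 0 ∧ f * comb j q.mon h = comb j q.mon g
  rel : q.Rel j (std 0)

/-- The stabiliser of the standard datum. -/
def T_STAB : Prop := ∀ {k : Type} [Field k], (2 : k) = 0 →
  ∀ (L : Fin 3 → Fin 3 → k) (u u' : k) (s r0 r1 : MvPolynomial (Fin 3) k),
  s.IsHomogeneous 2 → r0.IsHomogeneous 5 → r1.IsHomogeneous 3 → u ≠ 0 → u' ≠ 0 →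
  let D : Data k := std 0
  lsub L D.a = MvPolynomial.C u * D.a →
  lsub L D.c = MvPolynomial.C (u ^ 2) * D.c + s ^ 2 + MvPolynomial.C u * D.a * s →
  lsub L D.b0 = MvPolynomial.C u' * D.b0 →
  MvPolynomial.C (u' ^ 2) * D.e1 + r1 ^ 2 * D.a + MvPolynomial.C u' * (D.b0 * r1)
    + lsub L D.e1 * MvPolynomial.C u = 0 →
  MvPolynomial.C (u' ^ 2) * D.e0 + r0 ^ 2 + r1 ^ 2 * D.c + MvPolynomial.C u' * (D.b0 * r0)
    + lsub L D.e0 + lsub L D.e1 * s = 0 →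
  ∃ z : k, z ≠ 0 ∧ (∀ i j, L i j = if i = j then z else 0) ∧ u = z ^ 2 ∧
    (s = 0 ∨ s = MvPolynomial.C u * D.a)

/-- The subfield `k(X, Y)`. -/
def LFs {k K : Type} [Field k] [Field K] (j : k →+* K) (q : Quad K) : Subfield K :=
  Subfield.closure (Set.range j ∪ {(q.X : K), (q.Y : K)})

/-- The subfield `k(X, Y, n)`. -/
def KYs {k K : Type} [Field k] [Field K] (j : k →+* K) (q : Quad K) : Subfield K :=
  Subfield.closure (Set.range j ∪ {(q.X : K), (q.Y : K), q.n})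

/-- `1, n` and `1, w` are bases of `k(X, Y, n)` over `k(X, Y)` and of `K` over `k(X, Y, n)`. -/
def T_FFD : Prop := ∀ {k K : Type} [Field k] [Field K] (j : k →+* K) (q : Quad K),
  FFM j q → q.n ∉ LFs j q ∧ q.w ∉ KYs j q ∧
  (∀ f ∈ KYs j q, ∃ f₀ ∈ LFs j q, ∃ f₁ ∈ LFs j q, f = f₀ + f₁ * q.n) ∧
  (∀ f : K, ∃ f₀ ∈ KYs j q, ∃ f₁ ∈ KYs j q, f = f₀ + f₁ * q.w)

/-- The space `W d = H⁰(X₀, O(d))` inside the function field. -/
def WK {k K : Type} [Field k] [Field K] (j : k →+* K) (q : Quad K) (d : ℤ) : Set K :=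
  {f | InSpan j q.mon (regd d ∅) f}

/-- Colon lemma. -/
def T_COL : Prop := ∀ {k K : Type} [Field k] [Field K] (j : k →+* K) (q : Quad K),
  FFM j q → ∀ (d : ℤ) (e : ℕ) (f : K), f ∈ WK j q d → f * (q.X : K) ^ e ∈ WK j q d →
  f ∈ WK j q (d - e)

/-- An automorphism which preserves the canonical forms is linear in homogeneous coordinates. -/
def T_AK : Prop := ∀ {k K : Type} [Field k] [Field K] (j : k →+* K) (q : Quad K),
  (2 : k) = 0 → FFM j q →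
  ∀ (a : K ≃+* K), (∀ c, a (j c) = j c) → ∀ h : K, h ≠ 0 →
  (∀ f ∈ WK j q 4, a f * h ∈ WK j q 4) → (∀ f ∈ WK j q 8, a f * h ^ 2 ∈ WK j q 8) →
  (∀ f ∈ WK j q 4, a.symm f * (a.symm h)⁻¹ ∈ WK j q 4) →
  (∀ f ∈ WK j q 8, a.symm f * (a.symm h)⁻¹ ^ 2 ∈ WK j q 8) →
  ∃ (L : Fin 3 → Fin 3 → k) (lam : K) (u u' : k) (s r0 r1 : MvPolynomial (Fin 3) k),
    Related j q (q.map (a : K →+* K)) L lam u u' s r0 r1 ∧ lam ≠ 0 ∧ u ≠ 0 ∧ u' ≠ 0 ∧
    s.IsHomogeneous 2 ∧ r0.IsHomogeneous 5 ∧ r1.IsHomogeneous 3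

/-- Automorphisms of the function field which preserve the canonical forms. -/
def T_AUTK : Prop := ∀ {k K : Type} [Field k] [Field K] (j : k →+* K) (q : Quad K),
  (2 : k) = 0 → FFM j q →
  ∀ (a : K ≃+* K), (∀ c, a (j c) = j c) → ∀ h : K, h ≠ 0 →
  (∀ f ∈ WK j q 4, a f * h ∈ WK j q 4) → (∀ f ∈ WK j q 8, a f * h ^ 2 ∈ WK j q 8) →
  (∀ f ∈ WK j q 4, a.symm f * (a.symm h)⁻¹ ∈ WK j q 4) →
  (∀ f ∈ WK j q 8, a.symm f * (a.symm h)⁻¹ ^ 2 ∈ WK j q 8) →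
  a q.X = q.X ∧ a q.Y = q.Y ∧ (a q.n = q.n ∨ a q.n = q.n + q.X * q.Y)

end Pool.Agent.H1.CM
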