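import Mathlib
import Pool.Agent.H1.CM.Targets1

/-!
# Coefficients of monomials
-/

namespace Pool.Agent.H1.CM

section Coef

variable {A : Type} [CommRing A]

/-- The exponent vector `(a, b, c)`. -/
noncomputable def xpo (a b c : ℕ) : Fin 3 →₀ ℕ := Finsupp.equivFunOnFinite.symm ![a, b, c]

lemma xpo_eq_iff (a b c a' b' c' : ℕ) : xpo a b c = xpo a' b' c' ↔ a = a' ∧ b = b' ∧ c = c' := by
  unfold xpo
  rw [Equiv.apply_eq_iff_eq]
  constructor
  · intro h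
    exact ⟨congrFun h 0, congrFun h 1, congrFun h 2⟩
  · rintro ⟨rfl, rfl, rfl⟩
    rfl

lemma xpo_surj (m : Fin 3 →₀ ℕ) : m = xpo (m 0) (m 1) (m 2) := by
  ext i
  fin_cases i <;> rfl

/-- The monomial `r x^a y^b z^c`. -/
lemma mono_eq (r : A) (a b c : ℕ) :
    (MvPolynomial.C r * (MvPolynomial.X 0 ^ a * MvPolynomial.X 1 ^ b * MvPolynomial.X 2 ^ c) :
      MvPolynomial (Fin 3) A) = MvPolynomial.monomial (xpo a b c) r := by
  rw [MvPolynomial.monomial_eq]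
  congr 1
  rw [Finsupp.prod_fintype _ _ (by simp)]
  simp [Fin.prod_univ_three, xpo]

lemma cf_mono (r : A) (a b c i j l : ℕ) :
    cf (MvPolynomial.C r * (MvPolynomial.X 0 ^ a * MvPolynomial.X 1 ^ b * MvPolynomial.X 2 ^ c) :
      MvPolynomial (Fin 3) A) i j l = if a = i ∧ b = j ∧ c = l then r else 0 := by
  rw [mono_eq]
  unfold cf
  rw [MvPolynomial.coeff_monomial]
  have := xpo_eq_iff a b c i j l
  unfold xpo at this ⊢
  simp only [this]

lemma cf_add (p q : MvPolynomial (Fin 3) A) (i j l : ℕ) : cf (p + q) i j l = cf p i j l + cf q i j l :=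
  MvPolynomial.coeff_add ..

lemma cf_sub (p q : MvPolynomial (Fin 3) A) (i j l : ℕ) : cf (p - q) i j l = cf p i j l - cf q i j l :=
  MvPolynomial.coeff_sub ..

lemma cf_C_mul (r : A) (p : MvPolynomial (Fin 3) A) (i j l : ℕ) :
    cf (MvPolynomial.C r * p) i j l = r * cf p i j l :=
  MvPolynomial.coeff_C_mul ..

lemma cf_map {A' : Type} [CommRing A'] (φ : A →+* A') (p : MvPolynomial (Fin 3) A) (i j l : ℕ) :
    cf (MvPolynomial.map φ p) i j l = φ (cf p i j l) :=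
  MvPolynomial.coeff_map ..

/-- Polynomials with equal coefficients are equal. -/
lemma cf_ext {p q : MvPolynomial (Fin 3) A} (h : ∀ i j l, cf p i j l = cf q i j l) : p = q := by
  refine MvPolynomial.ext _ _ fun m => ?_
  rw [xpo_surj m]
  exact h _ _ _

/-- `xy` as a monomial. -/
lemma aStd_eq : (MvPolynomial.X 0 * MvPolynomial.X 1 : MvPolynomial (Fin 3) A)
    = MvPolynomial.C 1 * (MvPolynomial.X 0 ^ 1 * MvPolynomial.X 1 ^ 1 * MvPolynomial.X 2 ^ 0) := by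
  simp

/-- `c` as a sum of monomials. -/
lemma cStd_eq : cStd A
    = MvPolynomial.C 1 * (MvPolynomial.X 0 ^ 3 * MvPolynomial.X 1 ^ 0 * MvPolynomial.X 2 ^ 1)
    + MvPolynomial.C 1 * (MvPolynomial.X 0 ^ 0 * MvPolynomial.X 1 ^ 3 * MvPolynomial.X 2 ^ 1)
    + MvPolynomial.C 1 * (MvPolynomial.X 0 ^ 1 * MvPolynomial.X 1 ^ 0 * MvPolynomial.X 2 ^ 3)
    + MvPolynomial.C 1 * (MvPolynomial.X 0 ^ 0 * MvPolynomial.X 1 ^ 1 * MvPolynomial.X 2 ^ 3) := by
  simp [cStd]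

lemma cf_aStd (i j l : ℕ) : cf (MvPolynomial.X 0 * MvPolynomial.X 1 : MvPolynomial (Fin 3) A) i j l
    = if 1 = i ∧ 1 = j ∧ 0 = l then 1 else 0 := by
  rw [aStd_eq, cf_mono]

lemma cf_cStd (i j l : ℕ) : cf (cStd A) i j l
    = (if 3 = i ∧ 0 = j ∧ 1 = l then 1 else 0) + (if 0 = i ∧ 3 = j ∧ 1 = l then 1 else 0)
      + (if 1 = i ∧ 0 = j ∧ 3 = l then 1 else 0) + (if 0 = i ∧ 1 = j ∧ 3 = l then 1 else 0) := by
  rw [cStd_eq]
  simp only [cf_add, cf_mono]

lemma cf_b0Std (t : A) (i j l : ℕ) : cf (std t).b0 i j l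
    = (if 5 = i ∧ 0 = j ∧ 0 = l then 1 - t else 0) + (if 0 = i ∧ 5 = j ∧ 0 = l then 1 else 0) := by
  have : (std t).b0
      = MvPolynomial.C (1 - t) * (MvPolynomial.X 0 ^ 5 * MvPolynomial.X 1 ^ 0 * MvPolynomial.X 2 ^ 0)
      + MvPolynomial.C 1 * (MvPolynomial.X 0 ^ 0 * MvPolynomial.X 1 ^ 5 * MvPolynomial.X 2 ^ 0) := by
    simp [std]
  rw [this]
  simp only [cf_add, cf_mono]

/-- The standard data are in normal form. -/
lemma normalMod_std (t : A) (J : Ideal A) : NormalMod J (std t).a (std t).c := by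
  constructor <;> simp [std, cf_aStd, cf_cStd]

end Coef

end Pool.Agent.H1.CM
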