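import Pool.Agent.H57.CM.Targets
import Pool.Agent.H57.LH.Ex

/-!
# Chains of equivalence relations (MP_6ab439_lc), examples: row H0F
-/

set_option autoImplicit false
set_option linter.unusedVariables false

namespace Pool.Agent.H1.CM

open Pool.Agent.H68.BP Pool.Agent.H58.SF Pool.Agent.H53.NR
open Pool.Agent.H53.GC (strOn sigOf)
open Pool.Agent.H57.AR (tp ty Ty)
open Pool.Agent.H57.LH (Hmg ty_strOn)
open Pool.Agent.H72.CH
open Pool.Agent.H57.CM
open Function

theorem pf_H0F (hTPC : T_TPC) : T_H0F := by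
  intro τ V m F 𝔹 lv h
  refine ⟨h.ne, h.cnt, ?_, h.str.lev, ?_, ?_, h.hmg⟩
  · have h1 : ∀ s : Fin τ.m ⊕ Fin m, 1 ≤ Nat.card (CAr τ m s) := by
      rintro (l | j)
      · show 1 ≤ Nat.card (Fin (τ.ar l))
        rw [Nat.card_fin]
        exact le_trans (by norm_num) (h.ar l)
      · show 1 ≤ Nat.card (Fin 2)
        rw [Nat.card_fin]
        norm_num
    intro l
    exact h1 _
  · intro x y hxy
    exact ((hTPC τ V (Fin 2) m 𝔹 lv h.str.lev x y).1 hxy).2 0 1
  · intro x y
    have h2 : ∀ (l : Fin τ.m) (v : V), ¬ 𝔹 l (fun _ => v) := by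
      intro l v hv
      have h3 := h.str.irr l _ hv
      have h4 := h.ar l
      have h5 : (⟨0, by omega⟩ : Fin (τ.ar l)) = ⟨1, by omega⟩ := h3 rfl
      simp at h5
    unfold cst
    rw [ty_strOn]
    rintro (l | j)
    · exact iff_of_false (h2 l x) (h2 l y)
    · show lv x x = j ↔ lv y y = j
      rw [h.str.lev.pl.self, h.str.lev.pl.self]

end Pool.Agent.H1.CM
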