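import Pool.Agent.H1.CM.LIM
import Pool.Agent.H1.CM.CLU

/-!
# Module LFT: lifting of the one-parameter group
-/

set_option autoImplicit false

open Filter Topology

universe u

namespace Pool.Agent.H1.CM.LFT

open Pool.Agent.H78.CM Pool.Agent.H1.CM.LIM Pool.Agent.H1.CM.CLU

theorem X (h : T_CLU.{u}) : T_LFT.{u} := by
  intro K _ _ _ _ T hT A _ _ _ _ τ hτ hτ1
  haveI : CompleteSpace A := FiniteDimensional.complete ℝ A
  haveI : ProperSpace A := FiniteDimensional.proper ℝ A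
  set tt : ℕ → ℝ := fun m => 1 / ((m : ℝ) + 1) with htt
  have htt0 : ∀ m, 0 < tt m := fun m => by positivity
  have htt1 : Tendsto tt atTop (𝓝 0) := tendsto_one_div_add_atTop_nhds_zero_nat
  have hcl : ∀ t, IsClosed (T t) := fun t =>
    hT.closed.preimage (f := fun k : K => (t, k)) (by fun_prop)
  have hcont : Continuous fun k : K => ‖τ k - 1‖ := (hτ.sub continuous_const).norm
  have hmin : ∀ m, ∃ k ∈ T (tt m), ∀ l ∈ T (tt m), ‖τ k - 1‖ ≤ ‖τ l - 1‖ := fun m => by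
    obtain ⟨k, hk, hk1⟩ := (hcl (tt m)).isCompact.exists_isMinOn (hT.ne _) hcont.continuousOn
    exact ⟨k, hk, fun l hl => hk1 hl⟩
  choose k hk hk1 using hmin
  set μ : ℕ → ℝ := fun m => ‖τ (k m) - 1‖ with hμ
  have hμ0 : ∀ m, 0 ≤ μ m := fun m => norm_nonneg _
  -- the minima tend to zero along a subsequence
  have hfreq : ∀ j : ℕ, ∃ᶠ m in atTop, μ m < 1 / ((j : ℝ) + 1) := by
    intro j
    obtain ⟨F, hF, hF1, l, hl⟩ := exists_lim k atTop
    have hl0 : l ∈ T 0 := mem_of_tendsto hT (htt1.mono_left hF1) hl hk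
    have h1 : Tendsto (fun m => ‖τ (k m * l⁻¹) - 1‖) F (𝓝 0) := by
      have h2 : Tendsto (fun m => k m * l⁻¹) F (𝓝 (l * l⁻¹)) := hl.mul_const l⁻¹
      have h3 := (hcont.tendsto (l * l⁻¹)).comp h2
      simpa [Function.comp_def] using h3
    have h4 : ∀ᶠ m in F, μ m < 1 / ((j : ℝ) + 1) := by
      have h5 := h1.eventually (gt_mem_nhds (show (0 : ℝ) < 1 / ((j : ℝ) + 1) by positivity))
      refine h5.mono fun m hm => lt_of_le_of_lt (hk1 m _ ?_) hm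
      have h6 := hT.mul _ _ _ _ (hk m) (hT.inv _ _ hl0)
      simpa using h6
    exact h4.frequently.filter_mono hF1
  obtain ⟨φ, hφ, hφ1⟩ := extraction_forall_of_frequently hfreq
  have hμφ : Tendsto (fun j => μ (φ j)) atTop (𝓝 0) :=
    squeeze_zero (fun j => hμ0 _) (fun j => (hφ1 j).le) tendsto_one_div_add_atTop_nhds_zero_nat
  set ν : ℕ → ℝ := fun j => μ (φ j) + tt (φ j) with hν
  have hν0 : ∀ j, 0 < ν j := fun j => add_pos_of_nonneg_of_pos (hμ0 _) (htt0 _)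
  have hν1 : Tendsto ν atTop (𝓝 0) := by
    simpa using hμφ.add (htt1.comp hφ.tendsto_atTop)
  set y : ℕ → A × ℝ := fun j => ((ν j)⁻¹ • (τ (k (φ j)) - 1), tt (φ j) / ν j) with hy
  have hnorm : ∀ j, ‖(ν j)⁻¹ • (τ (k (φ j)) - 1)‖ = μ (φ j) / ν j := fun j => by
    rw [norm_smul, norm_inv, Real.norm_of_nonneg (hν0 j).le, div_eq_inv_mul]
  have hsum : ∀ j, μ (φ j) / ν j + tt (φ j) / ν j = 1 := fun j => by
    rw [← add_div]; exact div_self (hν0 j).ne'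
  have hym : ∀ j, y j ∈ Metric.closedBall (0 : A) 1 ×ˢ Set.Icc (0 : ℝ) 1 := fun j => by
    have h1 : 0 ≤ μ (φ j) / ν j := div_nonneg (hμ0 _) (hν0 j).le
    have h2 : 0 ≤ tt (φ j) / ν j := div_nonneg (htt0 _).le (hν0 j).le
    have h3 := hsum j
    refine ⟨?_, h2, by linarith⟩
    rw [mem_closedBall_zero_iff, hnorm]
    linarith
  obtain ⟨⟨Y, s⟩, hYs, ψ, hψ, hψ1⟩ :=
    ((isCompact_closedBall (0 : A) 1).prod isCompact_Icc).tendsto_subseq hym
  have hY : Tendsto (fun j => (ν (ψ j))⁻¹ • (τ (k (φ (ψ j))) - 1)) atTop (𝓝 Y) :=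
    ((continuous_fst.tendsto _).comp hψ1)
  have hs : Tendsto (fun j => tt (φ (ψ j)) / ν (ψ j)) atTop (𝓝 s) :=
    ((continuous_snd.tendsto _).comp hψ1)
  have hνψ : Tendsto (fun j => ν (ψ j)) atTop (𝓝 0) := hν1.comp hψ.tendsto_atTop
  have key := h K T hT A τ hτ (fun j => k (φ (ψ j))) (fun j => tt (φ (ψ j)))
    (fun j => ν (ψ j)) s Y (fun j => hk _) (fun j => hν0 _) hνψ hs hY
  have hs0 : 0 ≤ s := hYs.2.1
  rcases hs0.lt_or_eq with hs1 | hs1
  · refine ⟨s⁻¹ • Y, fun t => ?_⟩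
    obtain ⟨l, hl, hl1⟩ := key (t / s)
    refine ⟨l, ?_, ?_⟩
    · rwa [mul_div_cancel₀ t hs1.ne'] at hl
    · rw [hl1, smul_smul, div_eq_mul_inv]
  · exfalso
    subst hs1
    have h1 : ∀ j, ∃ l ∈ T 0, τ l = NormedSpace.exp ((-ν (ψ j)) • Y) := fun j => by
      obtain ⟨l, hl, hl1⟩ := key (-ν (ψ j))
      exact ⟨l, by simpa using hl, hl1⟩
    choose l hl hl1 using h1
    have h2 : ∀ j, μ (φ (ψ j)) / ν (ψ j) ≤
        ‖(ν (ψ j))⁻¹ • (τ (k (φ (ψ j))) - 1) -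
          (ν (ψ j))⁻¹ • (NormedSpace.exp (ν (ψ j) • Y) - 1)‖ := fun j => by
      have h3 : k (φ (ψ j)) * l j ∈ T (tt (φ (ψ j))) := by
        have := hT.mul _ _ _ _ (hk (φ (ψ j))) (hl j)
        simpa using this
      have h4 := hk1 _ _ h3
      have h5 : τ (k (φ (ψ j)) * l j) - 1 =
          (τ (k (φ (ψ j))) - NormedSpace.exp (ν (ψ j) • Y)) * τ (l j) := by
        rw [sub_mul, map_mul, hl1 j, exp_mul_neg]
      have h6 : ‖τ (k (φ (ψ j)) * l j) - 1‖ ≤ ‖τ (k (φ (ψ j))) - NormedSpace.exp (ν (ψ j) • Y)‖ := by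
        rw [h5]
        calc _ ≤ ‖τ (k (φ (ψ j))) - NormedSpace.exp (ν (ψ j) • Y)‖ * ‖τ (l j)‖ := norm_mul_le _ _
          _ ≤ ‖τ (k (φ (ψ j))) - NormedSpace.exp (ν (ψ j) • Y)‖ * 1 :=
            mul_le_mul_of_nonneg_left (hτ1 _) (norm_nonneg _)
          _ = _ := mul_one _
      rw [← smul_sub, norm_smul, norm_inv, Real.norm_of_nonneg (hν0 _).le, div_eq_inv_mul]
      refine mul_le_mul_of_nonneg_left ?_ (inv_nonneg.2 (hν0 _).le)
      have h7 : τ (k (φ (ψ j))) - 1 - (NormedSpace.exp (ν (ψ j) • Y) - 1) =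
          τ (k (φ (ψ j))) - NormedSpace.exp (ν (ψ j) • Y) := by abel
      rw [h7]
      exact h4.trans h6
    have h8 : Tendsto (fun j => μ (φ (ψ j)) / ν (ψ j)) atTop (𝓝 1) := by
      have h9 : (fun j => μ (φ (ψ j)) / ν (ψ j)) = fun j => 1 - tt (φ (ψ j)) / ν (ψ j) := by
        funext j
        have := hsum (ψ j)
        linarith
      rw [h9]
      simpa using hs.const_sub 1
    have h10 : Tendsto (fun j => ‖(ν (ψ j))⁻¹ • (τ (k (φ (ψ j))) - 1) -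
          (ν (ψ j))⁻¹ • (NormedSpace.exp (ν (ψ j) • Y) - 1)‖) atTop (𝓝 0) := by
      have h11 := (hY.sub (exp_slope (fun j => hν0 (ψ j)) hνψ Y)).norm
      simpa using h11
    have h12 := le_of_tendsto_of_tendsto' h8 h10 h2
    linarith

end Pool.Agent.H1.CM.LFT
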