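import Pool.Agent.H78.CM.Targets

/-!
# Module LIM: powers of elements near `1`, and elementary facts on the exponential
-/

set_option autoImplicit false

open Filter Topology

namespace Pool.Agent.H1.CM.LIM

open Pool.Agent.H78.CM

section

variable {A : Type} [NormedRing A] [NormedAlgebra ℝ A] [CompleteSpace A]

theorem exp_cont : Continuous (NormedSpace.exp : A → A) := by
  letI : NormedAlgebra ℚ A := NormedAlgebra.restrictScalars ℚ ℝ A
  exact NormedSpace.exp_continuous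

theorem exp_add_smul (s t : ℝ) (b : A) :
    NormedSpace.exp ((s + t) • b) = NormedSpace.exp (s • b) * NormedSpace.exp (t • b) := by
  letI : NormedAlgebra ℚ A := NormedAlgebra.restrictScalars ℚ ℝ A
  rw [add_smul]
  exact NormedSpace.exp_add_of_commute (((Commute.refl b).smul_left s).smul_right t)

theorem exp_neg_mul (t : ℝ) (b : A) :
    NormedSpace.exp ((-t) • b) * NormedSpace.exp (t • b) = 1 := by
  rw [← exp_add_smul, neg_add_cancel, zero_smul, NormedSpace.exp_zero]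

theorem exp_mul_neg (t : ℝ) (b : A) :
    NormedSpace.exp (t • b) * NormedSpace.exp ((-t) • b) = 1 := by
  rw [← exp_add_smul, add_neg_cancel, zero_smul, NormedSpace.exp_zero]

theorem exp_pow (n : ℕ) (t : ℝ) (b : A) :
    NormedSpace.exp (t • b) ^ n = NormedSpace.exp ((n * t) • b) := by
  induction n with
  | zero => simp [NormedSpace.exp_zero]
  | succ n ih =>
    rw [pow_succ, ih, ← exp_add_smul]
    congr 2
    push_cast
    ring

/-- the difference quotients of the exponential -/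
theorem exp_slope {ν : ℕ → ℝ} (hν : ∀ m, 0 < ν m) (h0 : Tendsto ν atTop (𝓝 0)) (b : A) :
    Tendsto (fun m => (ν m)⁻¹ • (NormedSpace.exp (ν m • b) - 1)) atTop (𝓝 b) := by
  have h := (hasDerivAt_iff_tendsto_slope_zero).1 (hasDerivAt_exp_smul_const (𝕂 := ℝ) b 0)
  have h1 : Tendsto ν atTop (𝓝[≠] 0) := by
    rw [tendsto_nhdsWithin_iff]
    exact ⟨h0, Eventually.of_forall fun m => (hν m).ne'⟩
  have h2 := h.comp h1
  simpa [Function.comp_def, NormedSpace.exp_zero] using h2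

variable [NormOneClass A]

theorem pow_sub_pow_le (a b : A) (M : ℝ) (hM : 1 ≤ M) (ha : ‖a‖ ≤ M) (hb : ‖b‖ ≤ M) (n : ℕ) :
    ‖a ^ n - b ^ n‖ ≤ n * M ^ n * ‖a - b‖ := by
  have hM0 : 0 ≤ M := by linarith
  induction n with
  | zero => simp
  | succ n ih =>
    have h1 : a ^ (n + 1) - b ^ (n + 1) = a * (a ^ n - b ^ n) + (a - b) * b ^ n := by
      rw [pow_succ' a, pow_succ' b]
      noncomm_ring
    have h2 : ‖b ^ n‖ ≤ M ^ n := (norm_pow_le b n).trans (pow_le_pow_left₀ (norm_nonneg _) hb n)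
    have h3 : ‖a * (a ^ n - b ^ n)‖ ≤ M * (n * M ^ n * ‖a - b‖) :=
      (norm_mul_le _ _).trans (mul_le_mul ha ih (norm_nonneg _) hM0)
    have h4 : ‖(a - b) * b ^ n‖ ≤ ‖a - b‖ * M ^ n :=
      (norm_mul_le _ _).trans (mul_le_mul_of_nonneg_left h2 (norm_nonneg _))
    have h5 : M ^ n ≤ M ^ (n + 1) := pow_le_pow_right₀ hM (Nat.le_succ n)
    calc ‖a ^ (n + 1) - b ^ (n + 1)‖ ≤ M * (n * M ^ n * ‖a - b‖) + ‖a - b‖ * M ^ n := by
          rw [h1]
          exact (norm_add_le _ _).trans (add_le_add h3 h4)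
      _ ≤ M * (n * M ^ n * ‖a - b‖) + ‖a - b‖ * M ^ (n + 1) := by
          have := mul_le_mul_of_nonneg_left h5 (norm_nonneg (a - b))
          linarith
      _ = ((n + 1 : ℕ) : ℝ) * M ^ (n + 1) * ‖a - b‖ := by
          push_cast
          ring

/-- a convergent sequence of difference quotients is bounded -/
theorem norm_le_of_slope {g : ℕ → A} {ν : ℕ → ℝ} {Y : A} (hν : ∀ m, 0 < ν m)
    (hg : Tendsto (fun m => (ν m)⁻¹ • (g m - 1)) atTop (𝓝 Y)) :
    ∃ C : ℝ, 0 ≤ C ∧ ∀ m, ‖g m‖ ≤ 1 + C * ν m := by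
  obtain ⟨C, hC⟩ := (hg.norm).bddAbove_range
  refine ⟨max C 0, le_max_right _ _, fun m => ?_⟩
  have h1 : ‖(ν m)⁻¹ • (g m - 1)‖ ≤ max C 0 :=
    (hC (Set.mem_range_self m)).trans (le_max_left _ _)
  rw [norm_smul, norm_inv, Real.norm_of_nonneg (hν m).le, inv_mul_le_iff₀ (hν m)] at h1
  calc ‖g m‖ = ‖1 + (g m - 1)‖ := by congr 1; abel
    _ ≤ ‖(1 : A)‖ + ‖g m - 1‖ := norm_add_le _ _
    _ ≤ 1 + max C 0 * ν m := by rw [norm_one]; linarith [mul_comm (ν m) (max C 0)]

theorem X : T_LIM := by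
  intro A _ _ _ _ g ν Y hν h0 hg t ht
  have hh := exp_slope hν h0 Y
  obtain ⟨C₁, hC₁, hg1⟩ := norm_le_of_slope hν hg
  obtain ⟨C₂, hC₂, hh1⟩ := norm_le_of_slope hν hh
  set h : ℕ → A := fun m => NormedSpace.exp (ν m • Y) with hhdef
  set C := max C₁ C₂ with hC
  have hC0 : 0 ≤ C := hC₁.trans (le_max_left _ _)
  set n : ℕ → ℕ := fun m => ⌊t / ν m⌋₊ with hn
  have hnν : ∀ m, (n m : ℝ) * ν m ≤ t := fun m => by
    have := Nat.floor_le (div_nonneg ht (hν m).le)
    rw [← le_div_iff₀ (hν m)]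
    exact this
  have hnν' : ∀ m, t - ν m ≤ (n m : ℝ) * ν m := fun m => by
    have := (Nat.lt_floor_add_one (t / ν m)).le
    rw [div_le_iff₀ (hν m)] at this
    have h2 : ((⌊t / ν m⌋₊ : ℝ) + 1) * ν m = (n m : ℝ) * ν m + ν m := by rw [hn]; ring
    linarith
  have hnt : Tendsto (fun m => (n m : ℝ) * ν m) atTop (𝓝 t) := by
    have h1 : Tendsto (fun m => t - ν m) atTop (𝓝 t) := by
      simpa using (tendsto_const_nhds (x := t)).sub h0
    exact tendsto_of_tendsto_of_tendsto_of_le_of_le h1 tendsto_const_nhds hnν' hnν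
  have h2 : Tendsto (fun m => h m ^ n m) atTop (𝓝 (NormedSpace.exp (t • Y))) := by
    have h3 : ∀ m, h m ^ n m = NormedSpace.exp (((n m : ℝ) * ν m) • Y) := fun m => exp_pow _ _ _
    simp_rw [h3]
    exact ((exp_cont (A := A)).tendsto _).comp (hnt.smul_const Y)
  have h4 : Tendsto (fun m => g m ^ n m - h m ^ n m) atTop (𝓝 0) := by
    have h5 : Tendsto (fun m => t * Real.exp (C * t) *
        ‖(ν m)⁻¹ • (g m - 1) - (ν m)⁻¹ • (h m - 1)‖) atTop (𝓝 0) := by
      have h6 := ((hg.sub hh).norm).const_mul (t * Real.exp (C * t))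
      simpa using h6
    refine squeeze_zero_norm (fun m => ?_) h5
    have h7 : ‖g m‖ ≤ 1 + C * ν m :=
      (hg1 m).trans (by have := mul_le_mul_of_nonneg_right (le_max_left C₁ C₂) (hν m).le; linarith)
    have h8 : ‖h m‖ ≤ 1 + C * ν m :=
      (hh1 m).trans (by have := mul_le_mul_of_nonneg_right (le_max_right C₁ C₂) (hν m).le; linarith)
    have h9 := pow_sub_pow_le (g m) (h m) (1 + C * ν m)
      (by have := mul_nonneg hC0 (hν m).le; linarith) h7 h8 (n m)
    have h10 : (1 + C * ν m) ^ n m ≤ Real.exp (C * t) := by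
      have h11 : 1 + C * ν m ≤ Real.exp (C * ν m) := by
        have := Real.add_one_le_exp (C * ν m); linarith
      calc (1 + C * ν m) ^ n m ≤ Real.exp (C * ν m) ^ n m :=
            pow_le_pow_left₀ (by have := mul_nonneg hC0 (hν m).le; linarith) h11 _
        _ = Real.exp (C * ((n m : ℝ) * ν m)) := by
            rw [← Real.exp_nat_mul]; congr 1; ring
        _ ≤ Real.exp (C * t) := Real.exp_le_exp.2 (mul_le_mul_of_nonneg_left (hnν m) hC0)
    have h12 : ‖g m - h m‖ = ν m * ‖(ν m)⁻¹ • (g m - 1) - (ν m)⁻¹ • (h m - 1)‖ := by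
      rw [← smul_sub, norm_smul, norm_inv, Real.norm_of_nonneg (hν m).le, ← mul_assoc,
        mul_inv_cancel₀ (hν m).ne', one_mul]
      congr 1; abel
    set D := ‖(ν m)⁻¹ • (g m - 1) - (ν m)⁻¹ • (h m - 1)‖ with hD
    have hD0 : 0 ≤ D := norm_nonneg _
    calc ‖g m ^ n m - h m ^ n m‖ ≤ n m * (1 + C * ν m) ^ n m * (ν m * D) := by rw [← h12]; exact h9
      _ = (n m * ν m) * ((1 + C * ν m) ^ n m) * D := by ring
      _ ≤ t * Real.exp (C * t) * D := by
          refine mul_le_mul_of_nonneg_right ?_ hD0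
          exact mul_le_mul (hnν m) h10
            (pow_nonneg (by have := mul_nonneg hC0 (hν m).le; linarith) _) ht
  have h13 := h4.add h2
  simpa using h13

end

end Pool.Agent.H1.CM.LIM
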