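import Pool.Agent.H78.CM.Targets

/-!
# Module PW: the theorem of Peter and Weyl (orthogonal representations separate the points)
-/

set_option autoImplicit false

open Filter Topology MeasureTheory

universe u

namespace Pool.Agent.H1.CM.PW

open Pool.Agent.H78.CM

section Abstract

variable {K : Type u} [Group K] [TopologicalSpace K] {E : Type u} [NormedAddCommGroup E]
  [InnerProductSpace ℝ E]

/-- the matrices of a representation on a finite-dimensional invariant subspace -/
theorem exists_matrix (lam : K → E →ₗᵢ[ℝ] E) (hmul : ∀ g h x, lam (g * h) x = lam g (lam h x))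
    (hone : ∀ x, lam 1 x = x) (hcont : ∀ x, Continuous fun g => lam g x) (W : Submodule ℝ E)
    [FiniteDimensional ℝ W] (hW : W ≠ ⊥) (hinv : ∀ g, ∀ w ∈ W, lam g w ∈ W) :
    ∃ (m : ℕ) (σ : K →* Mat m), Continuous σ ∧ (∀ g, (σ g).transpose * σ g = 1) ∧
      ∀ k, σ k = 1 → ∀ w ∈ W, lam k w = w := by
  have h0 : Module.finrank ℝ W ≠ 0 := by
    intro h
    exact hW (Submodule.finrank_eq_zero.1 h)
  obtain ⟨m, hm⟩ := Nat.exists_eq_succ_of_ne_zero h0
  let b : OrthonormalBasis (Fin (m + 1)) ℝ W := (stdOrthonormalBasis ℝ W).reindex (finCongr hm)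
  let e : Fin (m + 1) → E := fun i => (b i : E)
  have heW : ∀ i, e i ∈ W := fun i => (b i).2
  have he : ∀ i j, inner ℝ (e i) (e j) = if i = j then (1 : ℝ) else 0 := fun i j => by
    have h := orthonormal_iff_ite.1 b.orthonormal i j
    rw [Submodule.coe_inner] at h
    exact h
  have hexp : ∀ w ∈ W, ∑ i, inner ℝ (e i) w • e i = w := fun w hw => by
    have h := congrArg Subtype.val (b.sum_repr' ⟨w, hw⟩)
    simpa [Submodule.coe_inner] using h
  have hpars : ∀ v ∈ W, ∀ w, ∑ i, inner ℝ (e i) v * inner ℝ (e i) w = inner ℝ v w :=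
    fun v hv w => by
    conv_rhs => rw [← hexp v hv]
    rw [sum_inner]
    exact Finset.sum_congr rfl fun i _ => by rw [real_inner_smul_left]
  let σ : K →* Mat m :=
    { toFun := fun g => Matrix.of fun i j => inner ℝ (e i) (lam g (e j))
      map_one' := by
        ext i j
        rw [Matrix.of_apply, hone, he, Matrix.one_apply]
      map_mul' := fun g h => by
        ext i j
        rw [Matrix.of_apply, hmul, Matrix.mul_apply]
        have h1 := hexp (lam h (e j)) (hinv h _ (heW j))
        conv_lhs => rw [← h1]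
        rw [map_sum, inner_sum]
        refine Finset.sum_congr rfl fun l _ => ?_
        rw [map_smul, real_inner_smul_right, mul_comm]
        rfl }
  have hσ : ∀ g i j, σ g i j = inner ℝ (e i) (lam g (e j)) := fun g i j => rfl
  refine ⟨m, σ, ?_, fun g => ?_, fun k hk w hw => ?_⟩
  · refine continuous_matrix fun i j => ?_
    exact continuous_const.inner (hcont (e j))
  · ext i j
    rw [Matrix.mul_apply, Matrix.one_apply, ← he i j, ← (lam g).inner_map_map (e i) (e j),
      ← hpars _ (hinv g _ (heW i))]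
    exact Finset.sum_congr rfl fun l _ => rfl
  · have h1 : ∀ j, lam k (e j) = e j := fun j => by
      rw [← hexp (lam k (e j)) (hinv k _ (heW j))]
      have h2 : ∀ i, inner ℝ (e i) (lam k (e j)) = if i = j then (1 : ℝ) else 0 := fun i => by
        rw [← hσ, hk, Matrix.one_apply]
      simp_rw [h2]
      simp
    rw [← hexp w hw, map_sum]
    exact Finset.sum_congr rfl fun i _ => by rw [map_smul, h1]

end Abstract

section Translation

variable {K : Type u} [Group K] [TopologicalSpace K] [IsTopologicalGroup K] [CompactSpace K]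
    [T2Space K] [SecondCountableTopology K] [MeasurableSpace K] [BorelSpace K] (μ : Measure K)
    [IsProbabilityMeasure μ] [μ.IsMulLeftInvariant]

/-- left translation on `L2` -/
noncomputable def lam (g : K) : Lp ℝ 2 μ →ₗᵢ[ℝ] Lp ℝ 2 μ :=
  Lp.compMeasurePreservingₗᵢ ℝ (fun x => g⁻¹ * x) (measurePreserving_mul_left μ g⁻¹)

theorem lam_ae (g : K) (h : Lp ℝ 2 μ) : lam μ g h =ᵐ[μ] fun x => h (g⁻¹ * x) :=
  Lp.coeFn_compMeasurePreserving h (measurePreserving_mul_left μ g⁻¹)

theorem lam_mul (g h : K) (x : Lp ℝ 2 μ) : lam μ (g * h) x = lam μ g (lam μ h x) := by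
  have h1 := lam_ae μ (g * h) x
  have h2 := lam_ae μ g (lam μ h x)
  have h3 := (measurePreserving_mul_left μ g⁻¹).quasiMeasurePreserving.ae_eq_comp (lam_ae μ h x)
  refine Lp.ext ?_
  filter_upwards [h1, h2, h3] with y hy1 hy2 hy3
  simp only [Function.comp_apply] at hy3
  rw [hy1, hy2, hy3, mul_inv_rev, mul_assoc]

theorem lam_one (x : Lp ℝ 2 μ) : lam μ 1 x = x := by
  refine Lp.ext ?_
  filter_upwards [lam_ae μ 1 x] with y hy
  rw [hy, inv_one, one_mul]

theorem lam_cont (x : Lp ℝ 2 μ) : Continuous fun g => lam μ g x := by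
  have h1 : Continuous fun g : K => (⟨fun x => g⁻¹ * x, by fun_prop⟩ : C(K, K)) := by
    refine ContinuousMap.continuous_of_continuous_uncurry _ ?_
    show Continuous fun p : K × K => p.1⁻¹ * p.2
    fun_prop
  exact (continuous_const (y := x)).compMeasurePreservingLp h1
    (fun g => measurePreserving_mul_left μ g⁻¹) (by norm_num)

variable (f : C(K, ℝ)) (S : Lp ℝ 2 μ →L[ℝ] Lp ℝ 2 μ)
  (hS : ∀ h : Lp ℝ 2 μ, S h =ᵐ[μ] fun x => ∫ y, f (x⁻¹ * y) * h y ∂μ)

include hS

theorem lam_S (g : K) (h : Lp ℝ 2 μ) :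
    lam μ g (S h) =ᵐ[μ] fun x => ∫ y, f (x⁻¹ * g * y) * h y ∂μ := by
  have h3 := (measurePreserving_mul_left μ g⁻¹).quasiMeasurePreserving.ae_eq_comp (hS h)
  filter_upwards [lam_ae μ g (S h), h3] with x hx hx3
  simp only [Function.comp_apply] at hx3
  rw [hx, hx3]
  simp only [mul_inv_rev, inv_inv]

theorem S_lam (g : K) (h : Lp ℝ 2 μ) : S (lam μ g h) = lam μ g (S h) := by
  refine Lp.ext ?_
  filter_upwards [hS (lam μ g h), lam_S μ f S hS g h] with x hx1 hx2
  rw [hx1, hx2]
  have h1 : ∫ y, f (x⁻¹ * y) * (lam μ g h) y ∂μ = ∫ y, f (x⁻¹ * y) * h (g⁻¹ * y) ∂μ := by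
    refine integral_congr_ae ?_
    filter_upwards [lam_ae μ g h] with y hy
    rw [hy]
  rw [h1, ← integral_mul_left_eq_self _ g]
  refine integral_congr_ae (Eventually.of_forall fun y => ?_)
  simp only [mul_assoc, inv_mul_cancel_left]

theorem S_symm (hf : ∀ x, f x⁻¹ = f x) : (S : Lp ℝ 2 μ →ₗ[ℝ] Lp ℝ 2 μ).IsSymmetric := by
  intro u v
  have hu : Integrable u μ := (Lp.memLp u).integrable (by norm_num)
  have hv : Integrable v μ := (Lp.memLp v).integrable (by norm_num)
  have h1 : inner ℝ (S u) v = ∫ x, ∫ y, f (x⁻¹ * y) * (u y * v x) ∂μ ∂μ := by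
    rw [L2.inner_def]
    refine integral_congr_ae ?_
    filter_upwards [hS u] with x hx
    rw [hx]
    simp only [RCLike.inner_apply, conj_trivial]
    rw [← integral_const_mul]
    refine integral_congr_ae (Eventually.of_forall fun y => ?_)
    simp only
    ring
  have h2 : inner ℝ u (S v) = ∫ x, ∫ y, f (x⁻¹ * y) * (v y * u x) ∂μ ∂μ := by
    rw [L2.inner_def]
    refine integral_congr_ae ?_
    filter_upwards [hS v] with x hx
    rw [hx]
    simp only [RCLike.inner_apply, conj_trivial]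
    rw [← integral_mul_const]
    refine integral_congr_ae (Eventually.of_forall fun y => ?_)
    simp only
    ring
  have h3 : Integrable (Function.uncurry fun x y : K => f (x⁻¹ * y) * (u y * v x))
      (μ.prod μ) := by
    have h4 : Integrable (fun z : K × K => v z.1 * u z.2) (μ.prod μ) := hv.mul_prod hu
    obtain ⟨C, hC⟩ := (isCompact_univ.image f.continuous).isBounded.exists_norm_le
    have h5 := h4.bdd_mul (f := fun z : K × K => f (z.1⁻¹ * z.2)) (c := C) ?_ ?_
    · refine h5.congr (Eventually.of_forall fun z => ?_)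
      simp only [Function.uncurry]
      ring
    · exact (Continuous.aestronglyMeasurable (by fun_prop))
    · exact Eventually.of_forall fun z => hC _ ⟨_, trivial, rfl⟩
  have h6 := integral_integral_swap h3
  show inner ℝ (S u) v = inner ℝ u (S v)
  rw [h1, h6, h2]
  refine integral_congr_ae (Eventually.of_forall fun x => ?_)
  refine integral_congr_ae (Eventually.of_forall fun y => ?_)
  simp only
  rw [← hf (x⁻¹ * y), mul_inv_rev, inv_inv]
  ring

end Translation

theorem X (h : T_PWA.{u}) : T_PW.{u} := by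
  intro K _ _ _ _ _ _ k hk
  by_contra hcon
  push Not at hcon
  letI : MeasurableSpace K := borel K
  haveI : BorelSpace K := ⟨rfl⟩
  let μ : Measure K := Measure.haarMeasure ⊤
  haveI : IsProbabilityMeasure μ := ⟨by
    have h1 := Measure.haarMeasure_self (K₀ := (⊤ : TopologicalSpace.PositiveCompacts K))
    simpa using h1⟩
  -- the function
  obtain ⟨v, hv0, hv1, -⟩ := exists_continuous_zero_one_of_isClosed
    (s := ({k, k⁻¹} : Set K)) (t := ({1} : Set K)) (by
      exact (Set.toFinite _).isClosed) isClosed_singleton (by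
      rw [Set.disjoint_singleton_right]
      rintro (h1 | h1)
      · exact hk h1.symm
      · exact hk (by simpa using h1.symm))
  let f : C(K, ℝ) := ⟨fun x => v x * v x⁻¹, by fun_prop⟩
  have hf : ∀ x, f x⁻¹ = f x := fun x => by
    show v x⁻¹ * v x⁻¹⁻¹ = v x * v x⁻¹
    rw [inv_inv, mul_comm]
  have hf1 : f 1 = 1 := by
    show v 1 * v 1⁻¹ = 1
    have : v 1 = 1 := hv1 rfl
    rw [inv_one, this, one_mul]
  have hfk : f k = 0 := by
    show v k * v k⁻¹ = 0
    have : v k = 0 := hv0 (by simp)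
    rw [this, zero_mul]
  obtain ⟨S, hScomp, hS⟩ := h K μ f
  have hsymm := S_symm μ f S hS hf
  -- the translation by `k` is the identity on the eigenspaces
  have hid : ∀ c : ℝ, c ≠ 0 → ∀ w ∈ Module.End.eigenspace (S : Lp ℝ 2 μ →ₗ[ℝ] Lp ℝ 2 μ) c,
      lam μ k w = w := by
    intro c hc w hw
    by_cases hW : Module.End.eigenspace (S : Lp ℝ 2 μ →ₗ[ℝ] Lp ℝ 2 μ) c = ⊥
    · rw [hW, Submodule.mem_bot] at hw
      rw [hw, map_zero]
    · haveI := ContinuousLinearMap.finite_dimensional_eigenspace hScomp c hc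
      obtain ⟨m, σ, h1, h2, h3⟩ := exists_matrix (lam μ) (lam_mul μ) (lam_one μ) (lam_cont μ)
        (Module.End.eigenspace (S : Lp ℝ 2 μ →ₗ[ℝ] Lp ℝ 2 μ) c) hW (fun g w hw => by
          rw [Module.End.mem_eigenspace_iff] at hw ⊢
          have h4 : S (lam μ g w) = lam μ g (S w) := S_lam μ f S hS g w
          show S (lam μ g w) = c • lam μ g w
          rw [h4, ← map_smul]
          exact congrArg _ hw)
      exact h3 k (hcon m σ h1 h2) w hw
  -- hence it is the identity on the range of `S`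
  have hrange : ∀ x, lam μ k (S x) = S x := by
    let D : Lp ℝ 2 μ →L[ℝ] Lp ℝ 2 μ := (lam μ k).toContinuousLinearMap.comp S - S
    have h1 : (⨆ c, Module.End.eigenspace (S : Lp ℝ 2 μ →ₗ[ℝ] Lp ℝ 2 μ) c) ≤
        LinearMap.ker (D : Lp ℝ 2 μ →ₗ[ℝ] Lp ℝ 2 μ) := by
      refine iSup_le fun c w hw => ?_
      rw [LinearMap.mem_ker]
      show lam μ k (S w) - S w = 0
      have h2 : S w = c • w := (Module.End.mem_eigenspace_iff).1 hw
      by_cases hc : c = 0
      · rw [h2, hc, zero_smul, map_zero, sub_zero]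
      · rw [h2, map_smul, hid c hc w hw, sub_self]
    have h3 := ContinuousLinearMap.orthogonalComplement_iSup_eigenspaces_eq_bot hScomp hsymm
    have h4 : (⨆ c, Module.End.eigenspace (S : Lp ℝ 2 μ →ₗ[ℝ] Lp ℝ 2 μ) c).topologicalClosure
        = ⊤ := (Submodule.topologicalClosure_eq_top_iff).2 h3
    have h5 : (⨆ c, Module.End.eigenspace (S : Lp ℝ 2 μ →ₗ[ℝ] Lp ℝ 2 μ) c).topologicalClosure ≤
        LinearMap.ker (D : Lp ℝ 2 μ →ₗ[ℝ] Lp ℝ 2 μ) :=
      Submodule.topologicalClosure_minimal _ h1 D.isClosed_ker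
    intro x
    have h6 : x ∈ LinearMap.ker (D : Lp ℝ 2 μ →ₗ[ℝ] Lp ℝ 2 μ) := h5 (h4 ▸ Submodule.mem_top)
    exact sub_eq_zero.1 h6
  -- evaluate at a continuous function
  let w : C(K, ℝ) := ⟨fun y => f (k * y) - f y, by fun_prop⟩
  let wL : Lp ℝ 2 μ := ContinuousMap.toLp 2 μ ℝ w
  have hwL : wL =ᵐ[μ] w := ContinuousMap.coeFn_toLp μ w
  let Φ : K → ℝ := fun x => ∫ y, (f (x⁻¹ * k * y) - f (x⁻¹ * y)) * w y ∂μ
  have hΦc : Continuous Φ := by
    have h1 := continuous_parametric_integral_of_continuous (μ := μ)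
      (f := fun x y : K => (f (x⁻¹ * k * y) - f (x⁻¹ * y)) * w y) (by
        show Continuous fun p : K × K => (f (p.1⁻¹ * k * p.2) - f (p.1⁻¹ * p.2)) * w p.2
        fun_prop) (isCompact_univ (X := K))
    simpa using h1
  have hint : ∀ F : K → ℝ, Continuous F → Integrable F μ := fun F hF =>
    hF.integrable_of_hasCompactSupport (HasCompactSupport.of_compactSpace F)
  have hΦ0 : Φ =ᵐ[μ] fun _ => 0 := by
    have h1 := lam_S μ f S hS k wL
    rw [hrange] at h1
    filter_upwards [h1, hS wL] with x hx1 hx2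
    have h2 : ∀ F : K → ℝ, ∫ y, F y * wL y ∂μ = ∫ y, F y * w y ∂μ := fun F => by
      refine integral_congr_ae ?_
      filter_upwards [hwL] with y hy
      rw [hy]
    rw [hx2, h2, h2] at hx1
    show ∫ y, (f (x⁻¹ * k * y) - f (x⁻¹ * y)) * w y ∂μ = 0
    simp_rw [sub_mul]
    rw [integral_sub (hint _ (by fun_prop)) (hint _ (by fun_prop)), hx1, sub_self]
  have hΦ : Φ = fun _ => 0 := (hΦc.ae_eq_iff_eq μ continuous_const).1 hΦ0
  have hΦ1 : ∫ y, w y * w y ∂μ = 0 := by
    have h1 := congrFun hΦ 1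
    simpa [Φ, w] using h1
  have hw2 : (fun y => w y * w y) = fun _ => 0 := by
    have h1 := (integral_eq_zero_iff_of_nonneg (fun y => mul_self_nonneg (w y))
      (hint _ (by fun_prop))).1 hΦ1
    exact (Continuous.ae_eq_iff_eq μ (by fun_prop) continuous_const).1 h1
  have hw1 : w 1 = 0 := by
    have := congrFun hw2 1
    simpa using this
  have : f (k * 1) - f 1 = 0 := hw1
  rw [mul_one, hfk, hf1] at this
  norm_num at this

end Pool.Agent.H1.CM.PW
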