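import Mathlib
import Pool.Agent.H1.CM.Defs

/-!
# Scheme level definitions
-/

open CategoryTheory AlgebraicGeometry Limits

namespace Pool.Agent.H1.CM

/-- The structure map `A → Γ(X, U)` of a scheme over `Spec A`. -/
noncomputable def scal {A : Type} [CommRing A] {X : Scheme.{0}}
    (f : X ⟶ Spec (CommRingCat.of A)) (U : X.Opens) : A →+* Γ(X, U) :=
  (f.appLE ⊤ U (by simp)).hom.comp (Scheme.ΓSpecIso (CommRingCat.of A)).inv.hom

/-- Restriction of sections. -/
def rs (X : Scheme.{0}) {U V : X.Opens} (h : U ≤ V) : Γ(X, V) →+* Γ(X, U) :=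
  (X.presheaf.map (homOfLE h).op).hom

open Classical in
/-- The sections over `V S` as a subring of the sections over the torus chart. -/
noncomputable def BX (X : Scheme.{0}) (V : Finset (Fin 3) → X.Opens) (S : Finset (Fin 3)) :
    Subring Γ(X, V Finset.univ) :=
  if h : V Finset.univ ≤ V S then (rs X h).range else ⊤

/-- The homogeneous coordinates `(X, Y, 1)` as units. -/
def Quad.cu {C : Type} [CommRing C] (q : Quad C) : Fin 3 → Cˣ := ![q.X, q.Y, 1]

/-- The ratio `x_{r'} / x_r`. -/
def Quad.ratio {C : Type} [CommRing C] (q : Quad C) (r r' : Fin 3) : C :=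
  ((q.cu r' * (q.cu r)⁻¹ : Cˣ) : C)

/-- `X` over `A` has the standard charts of the surface with datum `D`: `V S` is the open set where
`x_r ≠ 0` for all `r ∈ S`, and `q` consists of the functions `x/z, y/z, N/z², w/z⁵` on `V univ`. -/
structure StdOver {A : Type} [CommRing A] {X : Scheme.{0}} (f : X ⟶ Spec (CommRingCat.of A))
    (D : Data A) where
  V : Finset (Fin 3) → X.Opens
  q : Quad Γ(X, V Finset.univ)
  affine : ∀ S : Finset (Fin 3), S.Nonempty → IsAffineOpen (V S)
  inter : ∀ S T : Finset (Fin 3), S.Nonempty → T.Nonempty → V S ⊓ V T = V (S ∪ T)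
  le : ∀ S : Finset (Fin 3), S.Nonempty → V Finset.univ ≤ V S
  emp : V ∅ = ⊤
  cover : ⨆ r : Fin 3, V {r} = ⊤
  inj : ∀ (S : Finset (Fin 3)) (h : S.Nonempty), Function.Injective (rs X (le S h))
  frame : Frame (scal f (V Finset.univ)) q.mon (BX X V)
  rel : q.Rel (scal f (V Finset.univ)) D
  basic : ∀ (r r' : Fin 3) (u : Γ(X, V {r})),
    rs X (le {r} (Finset.singleton_nonempty r)) u = q.ratio r r' → X.basicOpen u = V {r, r'}

/-- The charts and functions of `X'` are pulled back from those of `X` along `g`. -/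
def Compat {A A' : Type} [CommRing A] [CommRing A'] {X X' : Scheme.{0}}
    {f : X ⟶ Spec (CommRingCat.of A)} {f' : X' ⟶ Spec (CommRingCat.of A')}
    {D : Data A} {D' : Data A'} (S : StdOver f D) (S' : StdOver f' D') (g : X' ⟶ X) : Prop :=
  (∀ U, S'.V U = g ⁻¹ᵁ (S.V U)) ∧
    ∃ h : S'.V Finset.univ ≤ g ⁻¹ᵁ (S.V Finset.univ),
      S.q.map (g.appLE (S.V Finset.univ) (S'.V Finset.univ) h).hom = S'.q

/-- A family together with an identification of the special fibre and a quadruple of functions on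
the torus chart adapted to the charts, with datum `D`. -/
structure Adapted {A k : Type} [CommRing A] [Field k] (π : A →+* k) {X X₀ : Scheme.{0}}
    (f : X ⟶ Spec (CommRingCat.of A)) {s₀ : X₀ ⟶ Spec (CommRingCat.of k)} {D₀ : Data k}
    (S₀ : StdOver s₀ D₀) (i : X₀ ⟶ X) (V : Finset (Fin 3) → X.Opens)
    (q : Quad Γ(X, V Finset.univ)) (D : Data A) : Prop where
  cart : IsPullback i s₀ f (Spec.map (CommRingCat.ofHom π))
  pre : ∀ S : Finset (Fin 3), i ⁻¹ᵁ (V S) = S₀.V S
  red : ∃ h : S₀.V Finset.univ ≤ i ⁻¹ᵁ (V Finset.univ),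
    q.map (i.appLE (V Finset.univ) (S₀.V Finset.univ) h).hom = S₀.q
  coord : Coord (BX X V) q
  rel : q.Rel (scal f (V Finset.univ)) D
  hom : D.Homog
  dred : D.map π = D₀

end Pool.Agent.H1.CM
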