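import Mathlib
import Pool.Agent.H1.CM.SDefs
open DirectSum
namespace Pool.Agent.H1.CM

section QuotientGrading

variable {P R : Type} [CommRing P] [CommRing R] [Algebra P R] (𝒢 : ℕ → Submodule P R)
  (I : Ideal R)

/-- The grading of a quotient. -/
def quotGr (n : ℕ) : Submodule P (R ⧸ I) := (𝒢 n).map (Ideal.Quotient.mkₐ P I).toLinearMap

variable [GradedAlgebra 𝒢]

instance quotGr_gradedMonoid : SetLike.GradedMonoid (quotGr 𝒢 I) where
  one_mem := ⟨1, SetLike.GradedOne.one_mem, by simp⟩
  mul_mem := by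
    rintro i j _ _ ⟨a, ha, rfl⟩ ⟨b, hb, rfl⟩
    exact ⟨a * b, SetLike.GradedMul.mul_mem ha hb, by simp⟩

/-- the graded pieces of the quotient map -/
def quotPiece (n : ℕ) : 𝒢 n →ₗ[P] quotGr 𝒢 I n :=
  ((Ideal.Quotient.mkₐ P I).toLinearMap.comp (𝒢 n).subtype).codRestrict _
    (fun x => ⟨x, x.2, rfl⟩)

/-- the map to the direct sum -/
noncomputable def quotAux : R →ₐ[P] ⨁ n, quotGr 𝒢 I n :=
  (DirectSum.toAlgebra P (fun n => 𝒢 n)
    (fun n => (DirectSum.lof P ℕ (fun n => quotGr 𝒢 I n) n).comp (quotPiece 𝒢 I n))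
    (by
      simp only [LinearMap.comp_apply]
      rw [DirectSum.lof_eq_of, DirectSum.one_def]
      rfl)
    (by
      intro i j a b
      simp only [LinearMap.comp_apply]
      rw [DirectSum.lof_eq_of, DirectSum.lof_eq_of, DirectSum.lof_eq_of, DirectSum.of_mul_of]
      congr 1)).comp
    (DirectSum.decomposeAlgEquiv 𝒢).toAlgHom

lemma quotAux_of_mem {n : ℕ} {x : R} (hx : x ∈ 𝒢 n) :
    quotAux 𝒢 I x = DirectSum.of (fun n => quotGr 𝒢 I n) n (quotPiece 𝒢 I n ⟨x, hx⟩) := by
  unfold quotAux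
  simp only [AlgHom.comp_apply]
  have : (DirectSum.decomposeAlgEquiv 𝒢).toAlgHom x = DirectSum.of (fun n => 𝒢 n) n ⟨x, hx⟩ := by
    change DirectSum.decompose 𝒢 x = _
    rw [DirectSum.decompose_of_mem 𝒢 hx]
  rw [this]
  rw [← DirectSum.lof_eq_of P]
  erw [DirectSum.toModule_lof]
  rfl

lemma quotAux_ker (hI : I.IsHomogeneous 𝒢) {x : R} (hx : x ∈ I) : quotAux 𝒢 I x = 0 := by
  classical
  rw [← DirectSum.sum_support_decompose 𝒢 x, map_sum]
  refine Finset.sum_eq_zero fun i _ => ?_
  rw [quotAux_of_mem 𝒢 I (DirectSum.decompose 𝒢 x i).2]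
  have : quotPiece 𝒢 I i ⟨_, (DirectSum.decompose 𝒢 x i).2⟩ = 0 := by
    apply Subtype.ext
    change Ideal.Quotient.mk I _ = 0
    rw [Ideal.Quotient.eq_zero_iff_mem]
    exact hI i hx
  rw [this, map_zero]

/-- The quotient of a graded algebra by a homogeneous ideal is graded. -/
@[instance_reducible] noncomputable def quotGradedAlgebra (hI : I.IsHomogeneous 𝒢) : GradedAlgebra (quotGr 𝒢 I) :=
  GradedAlgebra.ofAlgHom (quotGr 𝒢 I)
    (Ideal.Quotient.liftₐ I (quotAux 𝒢 I) (fun a ha => quotAux_ker 𝒢 I hI ha))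
    (by
      apply Ideal.Quotient.algHom_ext
      ext x
      simp only [AlgHom.comp_apply]
      classical
      rw [← DirectSum.sum_support_decompose 𝒢 x, map_sum, map_sum, map_sum, map_sum]
      refine Finset.sum_congr rfl fun i _ => ?_
      rw [show Ideal.Quotient.mkₐ P I ((DirectSum.decompose 𝒢 x i : R)) = Ideal.Quotient.mk I _ from rfl]
      erw [Ideal.Quotient.lift_mk]
      erw [quotAux_of_mem 𝒢 I (DirectSum.decompose 𝒢 x i).2]
      erw [DirectSum.coeAlgHom_of]
      rfl)
    (by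
      rintro i ⟨_, x, hx, rfl⟩
      erw [Ideal.Quotient.lift_mk]
      erw [quotAux_of_mem 𝒢 I hx]
      rfl)

end QuotientGrading


/-! ## The graded ring of a datum -/

open MvPolynomial

section SD

variable {P : Type} [CommRing P]

/-- The weights of `x, y, z, N, w`. -/
def wt : Fin 5 → ℕ := ![1, 1, 1, 2, 5]

/-- Forms in `x, y, z` as polynomials in `x, y, z, N, w`. -/
noncomputable def emb : MvPolynomial (Fin 3) P →ₐ[P] MvPolynomial (Fin 5) P :=
  MvPolynomial.rename (Fin.castLE (by norm_num))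

/-- `N² + aN + c`. -/
noncomputable def F1 (D : Data P) : MvPolynomial (Fin 5) P :=
  X 3 ^ 2 + emb D.a * X 3 + emb D.c

/-- `w² + (b0 + b1 N) w + (e0 + e1 N)`. -/
noncomputable def F2 (D : Data P) : MvPolynomial (Fin 5) P :=
  X 4 ^ 2 + (emb D.b0 + emb D.b1 * X 3) * X 4 + (emb D.e0 + emb D.e1 * X 3)

/-- The ideal of the surface. -/
noncomputable def ID (D : Data P) : Ideal (MvPolynomial (Fin 5) P) := Ideal.span {F1 D, F2 D}

/-- The homogeneous coordinate ring of the surface. -/
abbrev SD (D : Data P) : Type := MvPolynomial (Fin 5) P ⧸ ID D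

attribute [local instance] MvPolynomial.weightedGradedAlgebra

lemma emb_hom {p : MvPolynomial (Fin 3) P} {d : ℕ} (hp : p.IsHomogeneous d) :
    IsWeightedHomogeneous wt (emb p) d := by
  intro s hs
  obtain ⟨u, rfl, hu⟩ := MvPolynomial.coeff_rename_ne_zero _ _ _ hs
  have h := hp hu
  rw [Finsupp.weight_apply] at h ⊢
  rw [Finsupp.sum_mapDomain_index (by simp) (by intros; rw [add_smul])]
  rw [← h]
  refine Finsupp.sum_congr fun i _ => ?_
  fin_cases i <;> simp [wt]

lemma X_hom (i : Fin 5) : IsWeightedHomogeneous wt (X i : MvPolynomial (Fin 5) P) (wt i) :=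
  isWeightedHomogeneous_X P wt i

lemma F1_hom {D : Data P} (hD : D.Homog) : IsWeightedHomogeneous wt (F1 D) 4 := by
  unfold F1
  refine IsWeightedHomogeneous.add (IsWeightedHomogeneous.add ?_ ?_) (emb_hom hD.c)
  · exact (X_hom (P := P) 3).pow 2
  · exact (emb_hom hD.a).mul (X_hom (P := P) 3)

lemma F2_hom {D : Data P} (hD : D.Homog) : IsWeightedHomogeneous wt (F2 D) 10 := by
  unfold F2
  refine IsWeightedHomogeneous.add (IsWeightedHomogeneous.add ?_ ?_) (IsWeightedHomogeneous.add (emb_hom hD.e0) ?_)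
  · exact (X_hom (P := P) 4).pow 2
  · have := (IsWeightedHomogeneous.add (emb_hom hD.b0) ((emb_hom hD.b1).mul (X_hom (P := P) 3))).mul (X_hom (P := P) 4)
    exact this
  · exact (emb_hom hD.e1).mul (X_hom (P := P) 3)

lemma ID_hom {D : Data P} (hD : D.Homog) :
    (ID D).IsHomogeneous (weightedHomogeneousSubmodule P wt) := by
  refine Ideal.homogeneous_span _ _ ?_
  rintro x (rfl | rfl)
  · exact ⟨4, F1_hom hD⟩
  · exact ⟨10, F2_hom hD⟩

/-- The grading of the homogeneous coordinate ring. -/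
noncomputable def grD (D : Data P) : ℕ → Submodule P (SD D) :=
  quotGr (weightedHomogeneousSubmodule P wt) (ID D)

noncomputable instance grD_graded (D : Data P) [hD : Fact D.Homog] : GradedAlgebra (grD D) :=
  quotGradedAlgebra (weightedHomogeneousSubmodule P wt) (ID D) (ID_hom hD.out)

/-- The classes of `x, y, z`. -/
noncomputable def xg (D : Data P) (r : Fin 3) : SD D :=
  Ideal.Quotient.mk (ID D) (X (Fin.castLE (by norm_num) r))

/-- The classes of `1, N, w, Nw`. -/
noncomputable def eg (D : Data P) : Fin 4 → SD D :=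
  ![1, Ideal.Quotient.mk (ID D) (X 3), Ideal.Quotient.mk (ID D) (X 4),
    Ideal.Quotient.mk (ID D) (X 3 * X 4)]

/-- The product of the coordinates in `S`. -/
noncomputable def fS (D : Data P) (S : Finset (Fin 3)) : SD D := ∏ r ∈ S, xg D r

lemma xg_mem (D : Data P) (r : Fin 3) : xg D r ∈ grD D 1 := by
  refine ⟨X (Fin.castLE (by norm_num) r), ?_, rfl⟩
  have h := X_hom (P := P) (Fin.castLE (by norm_num) r)
  have h' : wt (Fin.castLE (by norm_num : 3 ≤ 5) r) = 1 := by fin_cases r <;> rfl
  rw [h'] at h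
  exact h

lemma fS_mem (D : Data P) [Fact D.Homog] (S : Finset (Fin 3)) : fS D S ∈ grD D S.card := by
  classical
  unfold fS
  induction S using Finset.induction_on with
  | empty => simpa using SetLike.GradedOne.one_mem (A := grD D)
  | insert a S ha ih =>
    rw [Finset.prod_insert ha, Finset.card_insert_of_notMem ha, add_comm S.card 1]
    exact SetLike.GradedMul.mul_mem (xg_mem D a) ih

/-- The structure map of the ring of a chart. -/
noncomputable def iAw (D : Data P) [Fact D.Homog] (f : SD D) :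
    P →+* HomogeneousLocalization.Away (grD D) f :=
  (HomogeneousLocalization.fromZeroRingHom (grD D) (Submonoid.powers f)).comp
    (algebraMap P (grD D 0))

open CategoryTheory AlgebraicGeometry in
/-- The structure map of `Proj`. -/
noncomputable def projStr (D : Data P) [Fact D.Homog] :
    Proj (grD D) ⟶ Spec (CommRingCat.of P) :=
  Proj.toSpecZero (grD D) ≫ Spec.map (CommRingCat.ofHom (algebraMap P (grD D 0)))

end SD

end Pool.Agent.H1.CM
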