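import Mathlib
import Pool.Agent.H1.CM.SDefs
import Pool.Agent.H1.CM.Basic

/-!
# Basic lemmas on structure maps, restrictions and the subrings `BX`
-/

open CategoryTheory AlgebraicGeometry Limits

namespace Pool.Agent.H1.CM

section SBasic

variable {A A' : Type} [CommRing A] [CommRing A'] {X X' : Scheme.{0}}

/-- The structure map as a morphism of `CommRingCat`. -/
lemma scal_eq (f : X ⟶ Spec (CommRingCat.of A)) (U : X.Opens) :
    CommRingCat.ofHom (scal f U)
      = (Scheme.ΓSpecIso (CommRingCat.of A)).inv ≫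
        f.appLE ⊤ U (le_top.trans_eq (Scheme.Hom.preimage_top f).symm) := by
  rfl

/-- Structure maps commute with base change (general form). -/
lemma scal_appLE (φ : A →+* A') (f : X ⟶ Spec (CommRingCat.of A))
    (f' : X' ⟶ Spec (CommRingCat.of A')) (g : X' ⟶ X)
    (h : g ≫ f = f' ≫ Spec.map (CommRingCat.ofHom φ)) (U : X.Opens) (V : X'.Opens)
    (e : V ≤ g ⁻¹ᵁ U) (a : A) :
    (g.appLE U V e).hom (scal f U a) = scal f' V (φ a) := by
  have key : CommRingCat.ofHom (scal f U) ≫ g.appLE U V e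
      = CommRingCat.ofHom φ ≫ CommRingCat.ofHom (scal f' V) := by
    rw [scal_eq, scal_eq, Category.assoc, Scheme.Hom.appLE_comp_appLE, ← Category.assoc,
      Scheme.ΓSpecIso_inv_naturality, Category.assoc]
    congr 1
    simp only [h, Scheme.Hom.comp_appLE]
    rfl
  have := congrArg (fun z => z.hom a) key
  simpa using this

/-- Structure maps commute with base change. -/
lemma scal_app (φ : A →+* A') (f : X ⟶ Spec (CommRingCat.of A))
    (f' : X' ⟶ Spec (CommRingCat.of A')) (g : X' ⟶ X)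
    (h : g ≫ f = f' ≫ Spec.map (CommRingCat.ofHom φ)) (U : X.Opens) (a : A) :
    (g.app U).hom (scal f U a) = scal f' (g ⁻¹ᵁ U) (φ a) := by
  rw [Scheme.Hom.app_eq_appLE]
  exact scal_appLE φ f f' g h U _ _ a

/-- Structure maps commute with restriction. -/
lemma rs_scal (f : X ⟶ Spec (CommRingCat.of A)) {U V : X.Opens} (h : U ≤ V) (a : A) :
    rs X h (scal f V a) = scal f U a := by
  have key : CommRingCat.ofHom (scal f V) ≫ X.presheaf.map (homOfLE h).op
      = CommRingCat.ofHom (scal f U) := by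
    rw [scal_eq, scal_eq, Category.assoc, Scheme.Hom.appLE_map]
  have := congrArg (fun z => z.hom a) key
  simpa [rs] using this

@[simp] lemma rs_refl {U : X.Opens} (h : U ≤ U) (c : Γ(X, U)) : rs X h c = c := by
  unfold rs
  have : (homOfLE h).op = 𝟙 _ := rfl
  rw [this, X.presheaf.map_id]
  rfl

lemma rs_rs {U V W : X.Opens} (h : U ≤ V) (h' : V ≤ W) (c : Γ(X, W)) :
    rs X h (rs X h' c) = rs X (h.trans h') c := by
  unfold rs
  rw [← RingHom.comp_apply, ← CommRingCat.hom_comp, ← Functor.map_comp]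
  rfl

/-- Pull-back commutes with restriction. -/
lemma appLE_rs (g : X' ⟶ X) {U V : X.Opens} {U' V' : X'.Opens} (h : U ≤ V) (h' : U' ≤ V')
    (e : U' ≤ g ⁻¹ᵁ U) (e' : V' ≤ g ⁻¹ᵁ V) (c : Γ(X, V)) :
    (g.appLE U U' e).hom (rs X h c) = rs X' h' ((g.appLE V V' e').hom c) := by
  have key : X.presheaf.map (homOfLE h).op ≫ g.appLE U U' e
      = g.appLE V V' e' ≫ X'.presheaf.map (homOfLE h').op := by
    rw [Scheme.Hom.map_appLE, Scheme.Hom.appLE_map]
  have := congrArg (fun z => z.hom c) key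
  exact this

/-- The subring `BX` when the restriction makes sense. -/
lemma BX_eq (V : Finset (Fin 3) → X.Opens) (S : Finset (Fin 3)) (h : V Finset.univ ≤ V S) :
    BX X V S = (rs X h).range := by
  unfold BX
  rw [dif_pos h]

lemma mem_BX (V : Finset (Fin 3) → X.Opens) (S : Finset (Fin 3)) (h : V Finset.univ ≤ V S)
    (c : Γ(X, V Finset.univ)) : c ∈ BX X V S ↔ ∃ b : Γ(X, V S), rs X h b = c := by
  rw [BX_eq V S h]
  exact RingHom.mem_range

lemma Quad.map_map {C C' C'' : Type} [CommRing C] [CommRing C'] [CommRing C''] (q : Quad C)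
    (φ : C →+* C') (ψ : C' →+* C'') : (q.map φ).map ψ = q.map (ψ.comp φ) := by
  ext <;> rfl

lemma appLE_appLE {X'' : Scheme.{0}} (g : X' ⟶ X) (g' : X'' ⟶ X') (U : X.Opens) (V : X'.Opens)
    (W : X''.Opens) (e : V ≤ g ⁻¹ᵁ U) (e' : W ≤ g' ⁻¹ᵁ V) (e'' : W ≤ (g' ≫ g) ⁻¹ᵁ U)
    (c : Γ(X, U)) :
    (g'.appLE V W e').hom ((g.appLE U V e).hom c) = ((g' ≫ g).appLE U W e'').hom c := by
  have key : g.appLE U V e ≫ g'.appLE V W e' = (g' ≫ g).appLE U W e'' :=
    Scheme.Hom.appLE_comp_appLE _ _ _ _ _ _ _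
  have := congrArg (fun z => z.hom c) key
  exact this

end SBasic

end Pool.Agent.H1.CM
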