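import Mathlib
import Pool.Agent.H1.CM.SDefs
import Pool.Agent.H1.CM.Targets1

/-!
# Targets 2: schemes
-/

open CategoryTheory AlgebraicGeometry Limits

namespace Pool.Agent.H1.CM

open IsLocalRing

/-! ## Thickenings -/

/-- The special fibre is a closed subscheme with the same topological space. -/
def T_HOM : Prop := ∀ {A k : Type} [CommRing A] [IsLocalRing A] [IsArtinianRing A] [Field k]
  (π : A →+* k), Function.Surjective π → ∀ {X X₀ : Scheme.{0}} (f : X ⟶ Spec (CommRingCat.of A))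
  (s₀ : X₀ ⟶ Spec (CommRingCat.of k)) (i : X₀ ⟶ X),
  IsPullback i s₀ f (Spec.map (CommRingCat.ofHom π)) →
  IsClosedImmersion i ∧ (∀ U₀ : X₀.Opens, ∃ U : X.Opens, i ⁻¹ᵁ U = U₀) ∧
  (∀ U U' : X.Opens, i ⁻¹ᵁ U ≤ i ⁻¹ᵁ U' → U ≤ U')

/-- Sections over affine open sets of a thickening. -/
def T_SUR : Prop := ∀ {A k : Type} [CommRing A] [IsLocalRing A] [IsArtinianRing A] [Field k]
  (π : A →+* k), Function.Surjective π → ∀ {X X₀ : Scheme.{0}} (f : X ⟶ Spec (CommRingCat.of A))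
  (s₀ : X₀ ⟶ Spec (CommRingCat.of k)) (i : X₀ ⟶ X),
  IsPullback i s₀ f (Spec.map (CommRingCat.ofHom π)) →
  ∀ U : X.Opens, IsAffineOpen U → IsAffineOpen (i ⁻¹ᵁ U) ∧
    Function.Surjective (i.app U).hom ∧
    ∀ g : Γ(X, U), (i.app U).hom g = 0 ↔ g ∈ Ideal.map (scal f U) (maximalIdeal A)

/-- A thickening of an affine scheme is affine (characteristic 2). -/
def T_AFF : Prop := ∀ {A k : Type} [CommRing A] [IsLocalRing A] [IsArtinianRing A] [Field k]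
  (π : A →+* k), Function.Surjective π → (2 : A) = 0 →
  ∀ {X X₀ : Scheme.{0}} (f : X ⟶ Spec (CommRingCat.of A))
  (s₀ : X₀ ⟶ Spec (CommRingCat.of k)) (i : X₀ ⟶ X),
  IsPullback i s₀ f (Spec.map (CommRingCat.ofHom π)) →
  ∀ U : X.Opens, IsAffineOpen (i ⁻¹ᵁ U) → IsAffineOpen U

/-- Flatness of sections over affine open sets. -/
def T_FLAT : Prop := ∀ {A : Type} [CommRing A] {X : Scheme.{0}}
  (f : X ⟶ Spec (CommRingCat.of A)), Flat f → ∀ U : X.Opens, IsAffineOpen U →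
  (scal f U).Flat

/-- The Čech data of a flat deformation. -/
def T_LINB : Prop := ∀ {A k : Type} [CommRing A] [IsLocalRing A] [IsArtinianRing A] [Field k]
  (π : A →+* k), Function.Surjective π → (2 : A) = 0 →
  ∀ {X X₀ : Scheme.{0}} (f : X ⟶ Spec (CommRingCat.of A))
  (s₀ : X₀ ⟶ Spec (CommRingCat.of k)) (i : X₀ ⟶ X), Flat f →
  IsPullback i s₀ f (Spec.map (CommRingCat.ofHom π)) →
  ∀ {D₀ : Data k} (S₀ : StdOver s₀ D₀) (V : Finset (Fin 3) → X.Opens),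
  (∀ S : Finset (Fin 3), i ⁻¹ᵁ (V S) = S₀.V S) →
  ∃ h : S₀.V Finset.univ ≤ i ⁻¹ᵁ (V Finset.univ),
    Ctx π (scal f (V Finset.univ)) (BX X V) (scal s₀ (S₀.V Finset.univ)) S₀.q
      (i.appLE (V Finset.univ) (S₀.V Finset.univ) h).hom

/-! ## Base change of the standard charts -/

/-- Base change. -/
def T_BC : Prop := ∀ {A A' : Type} [CommRing A] [CommRing A'] (φ : A →+* A')
  {X X' : Scheme.{0}} (f : X ⟶ Spec (CommRingCat.of A)) (f' : X' ⟶ Spec (CommRingCat.of A'))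
  (g : X' ⟶ X), IsPullback g f' f (Spec.map (CommRingCat.ofHom φ)) →
  ∀ {D : Data A} {D' : Data A'} (S : StdOver f D), D.map φ = D' →
    ∃ S' : StdOver f' D', Compat S S' g

/-- Composition. -/
def T_CMPT : Prop := ∀ {A A₁ A₂ : Type} [CommRing A] [CommRing A₁] [CommRing A₂]
  {X X₁ X₂ : Scheme.{0}} (f : X ⟶ Spec (CommRingCat.of A)) (f₁ : X₁ ⟶ Spec (CommRingCat.of A₁))
  (f₂ : X₂ ⟶ Spec (CommRingCat.of A₂)) {D : Data A} {D₁ : Data A₁} {D₂ : Data A₂}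
  (S : StdOver f D) (S₁ : StdOver f₁ D₁) (S₂ : StdOver f₂ D₂)
  (g₁ : X₁ ⟶ X) (g₂ : X₂ ⟶ X) (i : X₂ ⟶ X₁), i ≫ g₁ = g₂ →
  Compat S S₁ g₁ → Compat S S₂ g₂ → Compat S₁ S₂ i

/-! ## The special fibre -/

/-- The ring of the torus chart is a domain. -/
def T_DOM : Prop := ∀ {k C : Type} [Field k] [CommRing C] (ι : k →+* C) (q : Quad C),
  (2 : k) = 0 → Function.Bijective (comb ι q.mon) → q.Rel ι (std 0) → IsDomain C

/-- The special fibre is integral. -/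
def T_INT : Prop := ∀ {k : Type} [Field k], (2 : k) = 0 →
  ∀ {X₀ : Scheme.{0}} (s₀ : X₀ ⟶ Spec (CommRingCat.of k)), StdOver s₀ (std (0 : k)) →
  IsIntegral X₀

/-- The coordinates on the three charts: `(y, z, N, w)` at `x = 1`, `(x, z, N, w)` at `y = 1`,
`(x, y, N, w)` at `z = 1`. -/
def Quad.chart {C : Type} [CommRing C] (q : Quad C) : Fin 3 → Fin 4 → C :=
  ![![(q.Y : C) * ((q.X⁻¹ : Cˣ) : C), ((q.X⁻¹ : Cˣ) : C), q.n * ((q.X⁻¹ : Cˣ) : C) ^ 2,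
      q.w * ((q.X⁻¹ : Cˣ) : C) ^ 5],
    ![(q.X : C) * ((q.Y⁻¹ : Cˣ) : C), ((q.Y⁻¹ : Cˣ) : C), q.n * ((q.Y⁻¹ : Cˣ) : C) ^ 2,
      q.w * ((q.Y⁻¹ : Cˣ) : C) ^ 5],
    ![(q.X : C), (q.Y : C), q.n, q.w]]

section Charts

variable (k : Type) [CommRing k]

open MvPolynomial in
/-- First equation on the charts (characteristic 2). -/
noncomputable def G1 : Fin 3 → MvPolynomial (Fin 4) k :=
  ![X 2 ^ 2 + X 0 * X 2 + (X 1 + X 0 ^ 3 * X 1 + X 1 ^ 3 + X 0 * X 1 ^ 3),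
    X 2 ^ 2 + X 0 * X 2 + (X 0 ^ 3 * X 1 + X 1 + X 0 * X 1 ^ 3 + X 1 ^ 3),
    X 2 ^ 2 + X 0 * X 1 * X 2 + (X 0 ^ 3 + X 1 ^ 3 + X 0 + X 1)]

open MvPolynomial in
/-- Second equation on the charts (characteristic 2). -/
noncomputable def G2 : Fin 3 → MvPolynomial (Fin 4) k :=
  ![X 3 ^ 2 + (1 + X 0 ^ 5) * X 3 + X 0 ^ 3 * X 2 ^ 2 + X 1 ^ 9 + 1,
    X 3 ^ 2 + (X 0 ^ 5 + 1) * X 3 + X 0 ^ 3 * X 2 ^ 2 + X 0 * X 1 ^ 9 + X 0 ^ 10,
    X 3 ^ 2 + (X 0 ^ 5 + X 1 ^ 5) * X 3 + X 0 ^ 3 * X 1 ^ 3 * X 2 ^ 2 + X 0 + X 0 ^ 10]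

/-- The Jacobian minor with columns `i, j`. -/
noncomputable def minor (r : Fin 3) (i j : Fin 4) : MvPolynomial (Fin 4) k :=
  MvPolynomial.pderiv i (G1 k r) * MvPolynomial.pderiv j (G2 k r)
    - MvPolynomial.pderiv j (G1 k r) * MvPolynomial.pderiv i (G2 k r)

end Charts

/-- The Jacobian minors have no common zero. -/
def T_JAC : Prop := ∀ {k R : Type} [CommRing k] [CommRing R] (ι : k →+* R), (2 : k) = 0 →
  ∀ (r : Fin 3) (T : Fin 4 → R), MvPolynomial.eval₂ ι T (G1 k r) = 0 →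
  MvPolynomial.eval₂ ι T (G2 k r) = 0 →
  Ideal.span (Set.range fun p : Fin 4 × Fin 4 => MvPolynomial.eval₂ ι T (minor k r p.1 p.2)) = ⊤

/-- Presentation of the chart rings. -/
def T_PRES : Prop := ∀ {k C : Type} [Field k] [CommRing C] (ι : k →+* C) (q : Quad C)
  (B : Finset (Fin 3) → Subring C), (2 : k) = 0 → Frame ι q.mon B → q.Rel ι (std 0) →
  ∀ r : Fin 3, (∀ c : C, c ∈ B {r} ↔ ∃ p, c = MvPolynomial.eval₂ ι (q.chart r) p) ∧
    ∀ p : MvPolynomial (Fin 4) k, MvPolynomial.eval₂ ι (q.chart r) p = 0 ↔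
      p ∈ Ideal.span {G1 k r, G2 k r}

/-- Jacobian criterion for two equations in four variables. -/
def T_SMOA : Prop := ∀ {k R : Type} [Field k] [CommRing R] [Algebra k R]
  (g1 g2 : MvPolynomial (Fin 4) k) (T : Fin 4 → R),
  Function.Surjective (MvPolynomial.aeval (R := k) T) →
  (∀ p : MvPolynomial (Fin 4) k, MvPolynomial.aeval T p = 0 ↔ p ∈ Ideal.span {g1, g2}) →
  Ideal.span (Set.range fun p : Fin 4 × Fin 4 => MvPolynomial.aeval T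
    (MvPolynomial.pderiv p.1 g1 * MvPolynomial.pderiv p.2 g2
      - MvPolynomial.pderiv p.2 g1 * MvPolynomial.pderiv p.1 g2)) = ⊤ →
  RingHom.Locally (RingHom.IsStandardSmoothOfRelativeDimension 2) (algebraMap k R)

/-- The special fibre is smooth of relative dimension 2. -/
def T_SMO : Prop := ∀ {k : Type} [Field k], (2 : k) = 0 →
  ∀ {X₀ : Scheme.{0}} (s₀ : X₀ ⟶ Spec (CommRingCat.of k)), StdOver s₀ (std (0 : k)) →
  SmoothOfRelativeDimension 2 s₀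

/-- The quadruple in the function field. -/
noncomputable def StdOver.qK {k : Type} [CommRing k] {X₀ : Scheme.{0}}
    {s₀ : X₀ ⟶ Spec (CommRingCat.of k)} {D₀ : Data k} (S₀ : StdOver s₀ D₀) [IsIntegral X₀]
    (h : genericPoint X₀ ∈ S₀.V Finset.univ) : Quad X₀.functionField :=
  S₀.q.map (X₀.presheaf.germ (S₀.V Finset.univ) (genericPoint X₀) h).hom

/-- The function field of the special fibre. -/
def T_FFX : Prop := ∀ {k : Type} [Field k], (2 : k) = 0 →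
  ∀ {X₀ : Scheme.{0}} (s₀ : X₀ ⟶ Spec (CommRingCat.of k)) (S₀ : StdOver s₀ (std (0 : k)))
  [IsIntegral X₀], ∃ h : genericPoint X₀ ∈ S₀.V Finset.univ,
    FFM (constants s₀) (S₀.qK h)

/-- The generator of the 2-forms on the charts, relative to `η`: `X⁴, Y⁴, 1`. -/
def Quad.gen {K : Type} [CommRing K] (q : Quad K) : Fin 3 → K := ![(q.X : K) ^ 4, (q.Y : K) ^ 4, 1]

/-- The 2-form `η` and the residue formulas on the three charts. -/
def T_ETA : Prop := ∀ {k K : Type} [Field k] [Field K] [Algebra k K] (q : Quad K),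
  (2 : k) = 0 → FFM (algebraMap k K) q →
  ∃ η : Forms k K, η ≠ 0 ∧ (∀ ω : Forms k K, ∃ c : K, ω = c • η) ∧
    ∀ (r : Fin 3) (i j : Fin 4), i ≠ j → ∃ i' j' : Fin 4, ({i, j, i', j'} : Finset (Fin 4)) = Finset.univ ∧
      dd k (q.chart r i) (q.chart r j)
        = (q.gen r * MvPolynomial.eval₂ (algebraMap k K) (q.chart r) (minor k r i' j')) • η

/-- Generators of the 2-forms of a local ring. -/
def T_OMGA : Prop := ∀ {k K : Type} [Field k] [Field K] [Algebra k K] (R : Subring K)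
  (T : Fin 4 → K) (η : Forms k K) (M : Fin 4 → Fin 4 → K),
  (∀ c : k, algebraMap k K c ∈ R) → (∀ i, T i ∈ R) →
  (∀ f ∈ R, ∃ p r : MvPolynomial (Fin 4) k, (MvPolynomial.aeval T r : K) ≠ 0 ∧
    (MvPolynomial.aeval T r : K)⁻¹ ∈ R ∧ f * MvPolynomial.aeval T r = MvPolynomial.aeval T p) →
  (∀ i j, M i j ∈ R) → (∀ i j, dd k (T i) (T j) = M i j • η) →
  (∃ c : Fin 4 → Fin 4 → K, (∀ i j, c i j ∈ R) ∧ ∑ i, ∑ j, c i j * M i j = 1) →
  IsGen k R η 1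

/-- Local rings of the charts. -/
def T_LOC : Prop := ∀ {k : Type} [Field k], (2 : k) = 0 →
  ∀ {X₀ : Scheme.{0}} (s₀ : X₀ ⟶ Spec (CommRingCat.of k)) (S₀ : StdOver s₀ (std (0 : k)))
  [IsIntegral X₀] (h : genericPoint X₀ ∈ S₀.V Finset.univ) (r : Fin 3) (y : X₀), y ∈ S₀.V {r} →
  (∀ c : k, constants s₀ c ∈ localSub X₀ y) ∧ (∀ i, (S₀.qK h).chart r i ∈ localSub X₀ y) ∧
  (∀ f ∈ localSub X₀ y, ∃ p d : MvPolynomial (Fin 4) k,
    MvPolynomial.eval₂ (constants s₀) ((S₀.qK h).chart r) d ≠ 0 ∧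
    (MvPolynomial.eval₂ (constants s₀) ((S₀.qK h).chart r) d)⁻¹ ∈ localSub X₀ y ∧
    f * MvPolynomial.eval₂ (constants s₀) ((S₀.qK h).chart r) d
      = MvPolynomial.eval₂ (constants s₀) ((S₀.qK h).chart r) p)

/-- Generators of the 2-forms on the special fibre. -/
def T_OMG : Prop := ∀ {k : Type} [Field k], (2 : k) = 0 →
  ∀ {X₀ : Scheme.{0}} (s₀ : X₀ ⟶ Spec (CommRingCat.of k)) (S₀ : StdOver s₀ (std (0 : k)))
  [IsIntegral X₀] (h : genericPoint X₀ ∈ S₀.V Finset.univ),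
  letI := (constants s₀).toAlgebra
  ∃ η : Forms k X₀.functionField, η ≠ 0 ∧ (∀ ω : Forms k X₀.functionField, ∃ c : X₀.functionField, ω = c • η) ∧
    ∀ (r : Fin 3) (y : X₀), y ∈ S₀.V {r} → IsGen k (localSub X₀ y) η ((S₀.qK h).gen r)

/-- The canonical sheaf of the special fibre is ample. -/
def T_AMP : Prop := ∀ {k : Type} [Field k], (2 : k) = 0 →
  ∀ {X₀ : Scheme.{0}} (s₀ : X₀ ⟶ Spec (CommRingCat.of k)) (_ : StdOver s₀ (std (0 : k)))
  [IsIntegral X₀], CanonicalAmple s₀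

/-- Pluricanonical forms of the special fibre. -/
def T_CANF : Prop := ∀ {k : Type} [Field k], (2 : k) = 0 →
  ∀ {X₀ : Scheme.{0}} (s₀ : X₀ ⟶ Spec (CommRingCat.of k)) (S₀ : StdOver s₀ (std (0 : k)))
  [IsIntegral X₀] (h : genericPoint X₀ ∈ S₀.V Finset.univ),
  letI := (constants s₀).toAlgebra
  ∀ η : Forms k X₀.functionField, η ≠ 0 →
    (∀ (r : Fin 3) (y : X₀), y ∈ S₀.V {r} → IsGen k (localSub X₀ y) η ((S₀.qK h).gen r)) →
    ∀ (n : ℕ) (f : X₀.functionField), (∀ y : X₀, RegAt k (localSub X₀ y) η n f) ↔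
      f ∈ WK (constants s₀) (S₀.qK h) (4 * n)

/-! ## Automorphisms of the special fibre -/

/-- Action of an automorphism on the function field. -/
def T_AUTF : Prop := ∀ {k : Type} [Field k] {X₀ : Scheme.{0}} (s₀ : X₀ ⟶ Spec (CommRingCat.of k))
  [IsIntegral X₀] (α : X₀ ≅ X₀), α.hom ≫ s₀ = s₀ →
  ∃ a : X₀.functionField ≃+* X₀.functionField,
    (∀ c, a (constants s₀ c) = constants s₀ c) ∧
    (∀ y : X₀, (localSub X₀ (α.hom y)).map (a : X₀.functionField →+* X₀.functionField)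
      = localSub X₀ y) ∧
    ∀ (U : X₀.Opens) (h : genericPoint X₀ ∈ U) (h' : genericPoint X₀ ∈ α.hom ⁻¹ᵁ U) (c : Γ(X₀, U)),
      a ((X₀.presheaf.germ U (genericPoint X₀) h).hom c)
        = (X₀.presheaf.germ (α.hom ⁻¹ᵁ U) (genericPoint X₀) h').hom ((α.hom.app U).hom c)

/-- Action of a field automorphism on 2-forms. -/
def T_FORMA : Prop := ∀ {k K : Type} [Field k] [Field K] [Algebra k K] (a : K ≃+* K),
  (∀ c : k, a (algebraMap k K c) = algebraMap k K c) → ∀ η : Forms k K, η ≠ 0 →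
  (∀ ω : Forms k K, ∃ c : K, ω = c • η) →
  ∃ h : K, h ≠ 0 ∧ ∀ R R' : Subring K, R.map (a : K →+* K) = R' → ∀ (n : ℕ) (f : K),
    (RegAt k R η n f → RegAt k R' η n (a f * h ^ n)) ∧
    (RegAt k R' η n f → RegAt k R η n (a.symm f * (a.symm h)⁻¹ ^ n))

/-- Automorphisms of the special fibre preserve the charts and the coordinates `x, y, z`. -/
def T_AUT : Prop := ∀ {k : Type} [Field k], (2 : k) = 0 →
  ∀ {X₀ : Scheme.{0}} (s₀ : X₀ ⟶ Spec (CommRingCat.of k)) (S₀ : StdOver s₀ (std (0 : k)))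
  (α : X₀ ≅ X₀), α.hom ≫ s₀ = s₀ →
  (∀ S : Finset (Fin 3), α.hom ⁻¹ᵁ (S₀.V S) = S₀.V S) ∧
  ∃ h : S₀.V Finset.univ ≤ α.hom ⁻¹ᵁ (S₀.V Finset.univ),
    let a := (α.hom.appLE (S₀.V Finset.univ) (S₀.V Finset.univ) h).hom
    a S₀.q.X = S₀.q.X ∧ a S₀.q.Y = S₀.q.Y ∧
      (a S₀.q.n = S₀.q.n ∨ a S₀.q.n = S₀.q.n + S₀.q.X * S₀.q.Y)

/-! ## The natural function in characteristic 2 -/

/-- Existence of adapted normal coordinates. -/
def T_EX : Prop := ∀ {A k : Type} [CommRing A] [IsLocalRing A] [IsArtinianRing A] [Field k]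
  (π : A →+* k), Function.Surjective π → (2 : A) = 0 →
  ∀ {X X₀ : Scheme.{0}} (f : X ⟶ Spec (CommRingCat.of A))
  (s₀ : X₀ ⟶ Spec (CommRingCat.of k)) (i : X₀ ⟶ X), Flat f →
  IsPullback i s₀ f (Spec.map (CommRingCat.ofHom π)) →
  ∀ (S₀ : StdOver s₀ (std (0 : k))),
  ∃ (V : Finset (Fin 3) → X.Opens) (q : Quad Γ(X, V Finset.univ)) (D : Data A),
    Adapted π f S₀ i V q D ∧ NormalMod ⊥ D.a D.c

/-- The invariant does not depend on the choices. -/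
def T_UN : Prop := ∀ {A k : Type} [CommRing A] [IsLocalRing A] [IsArtinianRing A] [Field k]
  (π : A →+* k), Function.Surjective π → (2 : A) = 0 →
  ∀ {X X₀ : Scheme.{0}} (f : X ⟶ Spec (CommRingCat.of A))
  (s₀ : X₀ ⟶ Spec (CommRingCat.of k)), Flat f → ∀ (S₀ : StdOver s₀ (std (0 : k)))
  (i i' : X₀ ⟶ X) (V V' : Finset (Fin 3) → X.Opens) (q : Quad Γ(X, V Finset.univ))
  (q' : Quad Γ(X, V' Finset.univ)) (D D' : Data A),
  Adapted π f S₀ i V q D → Adapted π f S₀ i' V' q' D' →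
  NormalMod ⊥ D.a D.c → NormalMod ⊥ D'.a D'.c →
  ∃ v : Aˣ, cf D'.b0 5 0 0 = v * cf D.b0 5 0 0 ∧ cf D'.b0 0 5 0 = v * cf D.b0 0 5 0

/-- Base change of adapted coordinates. -/
def T_PB : Prop := ∀ {A A' k : Type} [CommRing A] [IsLocalRing A] [IsArtinianRing A]
  [CommRing A'] [IsLocalRing A'] [IsArtinianRing A'] [Field k]
  (π : A →+* k) (π' : A' →+* k) (φ : A →+* A'), Function.Surjective π →
  Function.Surjective π' → π'.comp φ = π →
  ∀ {X X' X₀ : Scheme.{0}} (f : X ⟶ Spec (CommRingCat.of A)) (f' : X' ⟶ Spec (CommRingCat.of A'))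
  (g : X' ⟶ X), IsPullback g f' f (Spec.map (CommRingCat.ofHom φ)) →
  ∀ (s₀ : X₀ ⟶ Spec (CommRingCat.of k)) {D₀ : Data k} (S₀ : StdOver s₀ D₀) (i : X₀ ⟶ X)
  (V : Finset (Fin 3) → X.Opens) (q : Quad Γ(X, V Finset.univ)) (D : Data A),
  Adapted π f S₀ i V q D →
  ∃ i' : X₀ ⟶ X', i' ≫ g = i ∧
    Adapted π' f' S₀ i' (fun S => g ⁻¹ᵁ (V S)) (q.map (g.app (V Finset.univ)).hom) (D.map φ)

/-- The natural function in characteristic 2. -/
def T_F2 : Prop := ∀ {k : Type} [Field k], (2 : k) = 0 →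
  ∀ {X₀ : Scheme.{0}} (s₀ : X₀ ⟶ Spec (CommRingCat.of k)) (S₀ : StdOver s₀ (std (0 : k))),
  ∃ F : NaturalFunction s₀ (InChar 2), ∀ (𝓧 : Family s₀) (h : InChar 2 𝓧) (i : X₀ ⟶ 𝓧.X)
    (V : Finset (Fin 3) → 𝓧.X.Opens) (q : Quad Γ(𝓧.X, V Finset.univ)) (D : Data 𝓧.A),
    Adapted 𝓧.π 𝓧.f S₀ i V q D → NormalMod ⊥ D.a D.c →
    F.val 𝓧 h * cf D.b0 0 5 0 = cf D.b0 5 0 0

/-! ## The model and the final assembly -/

/-- `ℤ[ε] → A`, `ε ↦ t`. -/
noncomputable def evt {A : Type} [CommRing A] (t : A) : Polynomial ℤ →+* A :=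
  Polynomial.eval₂RingHom (Int.castRingHom A) t

/-- The model over `ℤ[ε]` with its symmetry `ε ↦ 2 - ε`. -/
def T_MODEL : Prop := ∃ (X : Scheme.{0}) (f : X ⟶ Spec (CommRingCat.of (Polynomial ℤ)))
  (_ : StdOver f (std (Polynomial.X : Polynomial ℤ))), Flat f ∧ IsProper f ∧
  LocallyOfFinitePresentation f ∧
  ∃ T : X ≅ X, T.hom ≫ f = f ≫ Spec.map (CommRingCat.ofHom (evt (2 - Polynomial.X)))

/-- The families obtained from the model. -/
def T_FAM : Prop := ∀ {k : Type} [Field k] {X X₀ : Scheme.{0}}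
  (f : X ⟶ Spec (CommRingCat.of (Polynomial ℤ))), Flat f → IsProper f →
  LocallyOfFinitePresentation f → ∀ (s₀ : X₀ ⟶ Spec (CommRingCat.of k)) (g₀ : X₀ ⟶ X),
  IsPullback g₀ s₀ f (Spec.map (CommRingCat.ofHom (evt (0 : k)))) →
  ∀ {A : Type} [CommRing A] (π : A →+* k) (t : A), π t = 0 →
  ∃ (X' : Scheme.{0}) (f' : X' ⟶ Spec (CommRingCat.of A)) (g : X' ⟶ X) (i : X₀ ⟶ X'),
    IsPullback g f' f (Spec.map (CommRingCat.ofHom (evt t))) ∧
    IsPullback i s₀ f' (Spec.map (CommRingCat.ofHom π)) ∧ i ≫ g = g₀ ∧ Flat f' ∧ IsProper f' ∧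
    LocallyOfFinitePresentation f'

/-- The rings `Λ = W₂(k)[ε]/(ε², 2ε)`, `O = W₂(k)`, `E = k[ε]/(ε²)`. -/
def T_RINGS : Prop := ∀ (k : Type) [Field k] [CharP k 2] [IsAlgClosed k],
  ∃ (Λ O E : Type) (_ : CommRing Λ) (_ : CommRing O) (_ : CommRing E)
    (_ : IsLocalRing Λ) (_ : IsLocalRing O) (_ : IsLocalRing E)
    (_ : IsArtinianRing Λ) (_ : IsArtinianRing O) (_ : IsArtinianRing E)
    (πΛ : Λ →+* k) (πO : O →+* k) (πE : E →+* k) (θ₀ θ₂ : Λ →+* O) (χ : Λ →+* E) (e : Λ),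
    Function.Surjective πΛ ∧ Function.Surjective πO ∧ Function.Surjective πE ∧
    πO.comp θ₀ = πΛ ∧ πO.comp θ₂ = πΛ ∧ πE.comp χ = πΛ ∧ πΛ e = 0 ∧ θ₀ e = 0 ∧ θ₂ e = 2 ∧
    (2 : E) = 0 ∧ ∀ v : Λ, θ₀ v = θ₂ v → χ v ≠ 1 - χ e

/-- The assembly. -/
def T_FINAL : Prop := T_MODEL → T_BC → T_CMPT → T_INT → T_SMO → T_AMP → T_F2 → T_FAM → T_RINGS →
  T_FC → MainStatement

end Pool.Agent.H1.CM
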