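import Mathlib
import Pool.Agent.H1.CM.ProjDefs
import Pool.Agent.H1.CM.Targets2

/-!
# Targets 3: the model by `Proj`
-/

open CategoryTheory AlgebraicGeometry Limits MvPolynomial

namespace Pool.Agent.H1.CM

/-- `1, N, w, Nw` is a basis of the homogeneous coordinate ring over the forms in `x, y, z`. -/
def T_GB : Prop := ∀ {P : Type} [CommRing P] (D : Data P) (f : SD D),
  ∃! p : Fin 4 → MvPolynomial (Fin 3) P,
    f = ∑ t : Fin 4, Ideal.Quotient.mk (ID D) (emb (p t)) * eg D t

/-- The graded pieces. -/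
def T_GH : Prop := ∀ {P : Type} [CommRing P] (D : Data P) [Fact D.Homog] (n : ℕ) (f : SD D),
  f ∈ grD D n ↔ ∃ p : Fin 4 → MvPolynomial (Fin 3) P, Forms4 n p ∧
    f = ∑ t : Fin 4, Ideal.Quotient.mk (ID D) (emb (p t)) * eg D t

open Classical in
/-- The rings of the charts. -/
def T_AW : Prop := ∀ {P : Type} [CommRing P] (D : Data P) [Fact D.Homog],
  ∃ q : Quad (HomogeneousLocalization.Away (grD D) (fS D Finset.univ)),
    Function.Bijective (comb (iAw D (fS D Finset.univ)) q.mon) ∧
    q.Rel (iAw D (fS D Finset.univ)) D ∧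
    (∀ r : Fin 3, ∀ r' : Fin 3, ((q.ratio r r' : _) = HomogeneousLocalization.Away.mk (grD D)
      (fS_mem D Finset.univ) 1 (xg D r' * fS D (Finset.univ.erase r)) (by
        have h := SetLike.GradedMul.mul_mem (xg_mem D r') (fS_mem D (Finset.univ.erase r))
        have h2 : 1 + (Finset.univ.erase r).card = 1 • (Finset.univ : Finset (Fin 3)).card := by
          fin_cases r <;> rfl
        rw [← h2]
        exact h))) ∧
    ∀ (S : Finset (Fin 3)) (_ : S.Nonempty) (hx : fS D Finset.univ = fS D S * fS D Sᶜ),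
      Function.Injective (HomogeneousLocalization.awayMap (grD D) (fS_mem D Sᶜ) hx) ∧
      ∀ c, (∃ b, HomogeneousLocalization.awayMap (grD D) (fS_mem D Sᶜ) hx b = c) ↔
        InSpan (iAw D (fS D Finset.univ)) q.mon (reg S) c

/-- `Proj` has the standard charts. -/
def T_PSTD : Prop := ∀ {P : Type} [CommRing P] (D : Data P) [Fact D.Homog],
  ∃ S : StdOver (projStr D) D, ∀ U, S.V U = Proj.basicOpen (grD D) (fS D U)

/-- Flatness of a scheme with standard charts. -/
def T_SFL : Prop := ∀ {A : Type} [CommRing A] {X : Scheme.{0}} (f : X ⟶ Spec (CommRingCat.of A))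
  {D : Data A} (_ : StdOver f D), Flat f

/-- Properness. -/
def T_PPR : Prop := ∀ {P : Type} [CommRing P] (D : Data P) [Fact D.Homog], IsProper (projStr D)

/-- Finite presentation. -/
def T_PFP : Prop := ∀ {P : Type} [CommRing P] [IsNoetherianRing P] (D : Data P) [Fact D.Homog],
  LocallyOfFinitePresentation (projStr D)

/-- The symmetry. -/
def T_PSYM : Prop := ∀ [Fact (std (Polynomial.X : Polynomial ℤ)).Homog],
  ∃ T : Proj (grD (std (Polynomial.X : Polynomial ℤ))) ≅
      Proj (grD (std (Polynomial.X : Polynomial ℤ))),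
    T.hom ≫ projStr (std (Polynomial.X : Polynomial ℤ))
      = projStr (std (Polynomial.X : Polynomial ℤ)) ≫
        Spec.map (CommRingCat.ofHom (evt (2 - Polynomial.X)))

/-- The model. -/
def T_MODELA : Prop := T_PSTD → T_SFL → T_PPR → T_PFP → T_PSYM → T_MODEL

end Pool.Agent.H1.CM
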